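import Mathlib

/-!
# Rw, Domin: away from the crossing radii one exponential dominates
-/

set_option autoImplicit false

open Set Filter Topology MeasureTheory
open scoped ContDiff ENNReal

namespace Pool.Agent.Lib.MP_95e7ec_an

/-- Proof. `U` is the set of the numbers `(log (ν k) - log (ν l))/(l - k)`, `k < l`, `ν k, ν l > 0`. For
`k ≠ l` with `ν k, ν l > 0` the affine function `g_kl s = (log (ν k) + k s) - (log (ν l) + l s)` is
`(k - l)(s - u)` with the corresponding `u ∈ U`, so `|g_kl s| > D` for `s ∈ I`, and its sign is constant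
on `I` (`I` is order-connected and does not contain `u`). Fix `s₀ ∈ I` and let `k` be the index with
`ν k > 0` and the largest `log (ν k) + k s₀`. Then `g_kl s₀ ≥ 0`, so `> D`, hence `g_kl > D` on `I` for all
`l ≠ k` with `ν l > 0`; exponentiate. -/
theorem exists_dominant {d : ℕ} (ν : Fin (d + 1) → ℝ) (hν : ∀ k, 0 ≤ ν k)
    (hne : ∃ k, ν k ≠ 0) :
    ∃ U : Finset ℝ, U.card ≤ (d + 1) ^ 2 ∧ ∀ D : ℝ, 0 < D → ∀ I : Set ℝ, I.OrdConnected →
      I.Nonempty → (∀ s ∈ I, ∀ u ∈ U, D < |s - u|) →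
      ∃ k, 0 < ν k ∧ ∀ s ∈ I, ∀ l, l ≠ k →
        ν l * Real.exp (((l : ℕ) : ℝ) * s) ≤
          Real.exp (-D) * (ν k * Real.exp (((k : ℕ) : ℝ) * s)) := by
  classical
  set u : Fin (d + 1) × Fin (d + 1) → ℝ := fun x =>
    (Real.log (ν x.1) - Real.log (ν x.2)) / (((x.2 : ℕ) : ℝ) - ((x.1 : ℕ) : ℝ)) with hu
  refine ⟨Finset.univ.image u, ?_, ?_⟩
  · refine Finset.card_image_le.trans ?_
    rw [Finset.card_univ, Fintype.card_prod, Fintype.card_fin, sq]
  intro D hD I hI hne' hfar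
  obtain ⟨s₀, hs₀⟩ := hne'
  set P : Finset (Fin (d + 1)) := Finset.univ.filter fun k => 0 < ν k with hP
  have hPne : P.Nonempty := by
    obtain ⟨k, hk⟩ := hne
    exact ⟨k, by rw [hP, Finset.mem_filter]; exact ⟨Finset.mem_univ _, lt_of_le_of_ne (hν k) (Ne.symm hk)⟩⟩
  obtain ⟨k, hkP, hkmax⟩ := P.exists_max_image
    (fun k => Real.log (ν k) + ((k : ℕ) : ℝ) * s₀) hPne
  have hk0 : 0 < ν k := (Finset.mem_filter.1 hkP).2
  refine ⟨k, hk0, fun s hs l hl => ?_⟩
  rcases (hν l).eq_or_lt with h0 | hl0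
  · rw [← h0, zero_mul]
    positivity
  have hlP : l ∈ P := by
    rw [hP, Finset.mem_filter]
    exact ⟨Finset.mem_univ _, hl0⟩
  have hmax := hkmax l hlP
  have hlk : ((l : ℕ) : ℝ) - ((k : ℕ) : ℝ) ≠ 0 := by
    intro h
    apply hl
    have : ((l : ℕ) : ℝ) = ((k : ℕ) : ℝ) := by linarith
    exact Fin.ext (by exact_mod_cast this)
  have habs : 1 ≤ |((l : ℕ) : ℝ) - ((k : ℕ) : ℝ)| := by
    have h1 : ((l : ℕ) : ℤ) - ((k : ℕ) : ℤ) ≠ 0 := by
      intro h
      apply hlk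
      have : (((l : ℕ) : ℤ) : ℝ) - (((k : ℕ) : ℤ) : ℝ) = 0 := by exact_mod_cast h
      simpa using this
    have h2 : (1 : ℤ) ≤ |((l : ℕ) : ℤ) - ((k : ℕ) : ℤ)| := Int.one_le_abs h1
    have h3 : ((1 : ℤ) : ℝ) ≤ ((|((l : ℕ) : ℤ) - ((k : ℕ) : ℤ)| : ℤ) : ℝ) := by exact_mod_cast h2
    rw [Int.cast_abs] at h3
    simpa using h3
  -- the affine function
  set v : ℝ := u (k, l) with hv
  have hvU : v ∈ Finset.univ.image u := Finset.mem_image_of_mem _ (Finset.mem_univ _)
  have hg : ∀ x : ℝ, (Real.log (ν k) + ((k : ℕ) : ℝ) * x) - (Real.log (ν l) + ((l : ℕ) : ℝ) * x) =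
      (((k : ℕ) : ℝ) - ((l : ℕ) : ℝ)) * (x - v) := by
    intro x
    have hv2 : v * (((l : ℕ) : ℝ) - ((k : ℕ) : ℝ)) = Real.log (ν k) - Real.log (ν l) := by
      rw [hv, hu]
      exact div_mul_cancel₀ _ hlk
    linear_combination -hv2
  have hD' : ∀ x ∈ I, D < |(((k : ℕ) : ℝ) - ((l : ℕ) : ℝ)) * (x - v)| := by
    intro x hx
    rw [abs_mul, abs_sub_comm ((k : ℕ) : ℝ)]
    have h1 := hfar x hx v hvU
    nlinarith [abs_nonneg (x - v)]
  have h0 : 0 ≤ (((k : ℕ) : ℝ) - ((l : ℕ) : ℝ)) * (s₀ - v) := by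
    rw [← hg s₀]
    linarith
  have hs1 : 0 < (((k : ℕ) : ℝ) - ((l : ℕ) : ℝ)) * (s₀ - v) := by
    have := hD' s₀ hs₀
    rw [abs_of_nonneg h0] at this
    linarith
  -- the sign is constant
  have hpos : 0 < (((k : ℕ) : ℝ) - ((l : ℕ) : ℝ)) * (s - v) := by
    by_contra hcon
    push Not at hcon
    have hvI : v ∈ I := by
      rcases lt_or_gt_of_ne (sub_ne_zero.1 hlk) with hlt | hgt
      · -- l < k
        have h1 : 0 < s₀ - v := by
          by_contra h
          push Not at h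
          nlinarith
        have h2 : s - v ≤ 0 := by
          by_contra h
          push Not at h
          nlinarith
        exact hI.out hs hs₀ ⟨by linarith, by linarith⟩
      · have h1 : s₀ - v < 0 := by
          by_contra h
          push Not at h
          nlinarith
        have h2 : 0 ≤ s - v := by
          by_contra h
          push Not at h
          nlinarith
        exact hI.out hs₀ hs ⟨by linarith, by linarith⟩
    have := hfar v hvI v hvU
    rw [sub_self, abs_zero] at this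
    linarith
  have hfin : D < (((k : ℕ) : ℝ) - ((l : ℕ) : ℝ)) * (s - v) := by
    have := hD' s hs
    rwa [abs_of_pos hpos] at this
  rw [← hg s] at hfin
  have h1 : ν l * Real.exp (((l : ℕ) : ℝ) * s) =
      Real.exp (Real.log (ν l) + ((l : ℕ) : ℝ) * s) := by
    rw [Real.exp_add, Real.exp_log hl0]
  have h2 : Real.exp (-D) * (ν k * Real.exp (((k : ℕ) : ℝ) * s)) =
      Real.exp (-D + (Real.log (ν k) + ((k : ℕ) : ℝ) * s)) := by
    rw [Real.exp_add, Real.exp_add, Real.exp_log hk0]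
  rw [h1, h2]
  exact Real.exp_le_exp.2 (by linarith)

end Pool.Agent.Lib.MP_95e7ec_an
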