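import Mathlib
import Pool.Agent.Lib.MP_95e7ec_an.Rq.Defs

/-!
# Rw, FormUp: a binary form at a good level is almost as large as everywhere
-/

set_option autoImplicit false

open Set Filter Topology MeasureTheory
open scoped ContDiff ENNReal

namespace Pool.Agent.Lib.MP_95e7ec_an

/-- the squared modulus of `sin c - τ cos c` -/
private theorem fu_normSq (τ : ℂ) (c : ℝ) :
    ‖(Real.sin c : ℂ) - τ * (Real.cos c : ℂ)‖ ^ 2 =
      (Real.sin c - τ.re * Real.cos c) ^ 2 + (τ.im * Real.cos c) ^ 2 := by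
  rw [Complex.sq_norm, Complex.normSq_apply]
  simp only [Complex.sub_re, Complex.sub_im, Complex.mul_re, Complex.mul_im, Complex.ofReal_re,
    Complex.ofReal_im]
  ring

/-- the angle to be avoided -/
private noncomputable def fuAng (τ : ℂ) : ℝ :=
  if τ.im ^ 2 ≤ 1 + τ.re ^ 2 then Real.arctan τ.re else Real.pi / 2

private theorem fu_up (τ : ℂ) (c : ℝ) :
    ‖(Real.sin c : ℂ) - τ * (Real.cos c : ℂ)‖ ^ 2 ≤ 1 + τ.re ^ 2 + τ.im ^ 2 := by
  rw [fu_normSq]
  have h := Real.sin_sq_add_cos_sq c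
  have h1 : (Real.sin c - τ.re * Real.cos c) ^ 2 ≤ 1 + τ.re ^ 2 := by
    have : (1 + τ.re ^ 2) * (Real.sin c ^ 2 + Real.cos c ^ 2) -
        (Real.sin c - τ.re * Real.cos c) ^ 2 = (Real.cos c + τ.re * Real.sin c) ^ 2 := by ring
    rw [h] at this
    nlinarith [sq_nonneg (Real.cos c + τ.re * Real.sin c)]
  have h2 : (τ.im * Real.cos c) ^ 2 ≤ τ.im ^ 2 := by
    rw [mul_pow]
    have : Real.cos c ^ 2 ≤ 1 := by nlinarith [sq_nonneg (Real.sin c)]
    nlinarith [sq_nonneg τ.im]
  linarith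

private theorem fu_low (τ : ℂ) {η c : ℝ} (hη : 0 < η)
    (hc : η ≤ |Real.sin (c - fuAng τ)|) :
    (η / 2) ^ 2 * (1 + τ.re ^ 2 + τ.im ^ 2) ≤
      ‖(Real.sin c : ℂ) - τ * (Real.cos c : ℂ)‖ ^ 2 := by
  rw [fu_normSq]
  have hs : η ^ 2 ≤ Real.sin (c - fuAng τ) ^ 2 := by
    rw [← sq_abs (Real.sin (c - fuAng τ))]
    exact pow_le_pow_left₀ hη.le hc 2
  unfold fuAng at hs
  split_ifs at hs with hcase
  · have h1 : (1 + τ.re ^ 2) * Real.sin (c - Real.arctan τ.re) ^ 2 =
        (Real.sin c - τ.re * Real.cos c) ^ 2 := by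
      have hpos : (0 : ℝ) < 1 + τ.re ^ 2 := by positivity
      have hsq : Real.sqrt (1 + τ.re ^ 2) ^ 2 = 1 + τ.re ^ 2 := Real.sq_sqrt hpos.le
      have hne : Real.sqrt (1 + τ.re ^ 2) ≠ 0 := (Real.sqrt_pos.mpr hpos).ne'
      rw [Real.sin_sub, Real.cos_arctan, Real.sin_arctan]
      field_simp
      rw [hsq]
    have h2 : (1 + τ.re ^ 2) * η ^ 2 ≤ (Real.sin c - τ.re * Real.cos c) ^ 2 := by
      rw [← h1]
      exact mul_le_mul_of_nonneg_left hs (by positivity)
    nlinarith [sq_nonneg (τ.im * Real.cos c), sq_nonneg η, mul_nonneg (sq_nonneg η)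
      (sub_nonneg.mpr hcase)]
  · have h1 : Real.sin (c - Real.pi / 2) ^ 2 = Real.cos c ^ 2 := by
      rw [Real.sin_sub_pi_div_two]
      ring
    rw [h1] at hs
    have h2 : τ.im ^ 2 * η ^ 2 ≤ (τ.im * Real.cos c) ^ 2 := by
      rw [mul_pow]
      exact mul_le_mul_of_nonneg_left hs (sq_nonneg _)
    push Not at hcase
    nlinarith [sq_nonneg (Real.sin c - τ.re * Real.cos c), sq_nonneg η, mul_nonneg (sq_nonneg η)
      (sub_nonneg.mpr hcase.le)]

private theorem fu_factor (τ : ℂ) {η c c' : ℝ} (hη : 0 < η)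
    (hc' : η ≤ |Real.sin (c' - fuAng τ)|) :
    ‖(Real.sin c : ℂ) - τ * (Real.cos c : ℂ)‖ ≤
      2 / η * ‖(Real.sin c' : ℂ) - τ * (Real.cos c' : ℂ)‖ := by
  apply le_of_sq_le_sq _ (by positivity)
  have h1 := fu_up τ c
  have h2 := fu_low τ hη hc'
  rw [mul_pow]
  have h3 : (2 / η) ^ 2 * (η / 2) ^ 2 = 1 := by
    field_simp
  calc ‖(Real.sin c : ℂ) - τ * (Real.cos c : ℂ)‖ ^ 2 ≤ 1 + τ.re ^ 2 + τ.im ^ 2 := h1
    _ = (2 / η) ^ 2 * ((η / 2) ^ 2 * (1 + τ.re ^ 2 + τ.im ^ 2)) := by
      rw [← mul_assoc, h3, one_mul]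
    _ ≤ _ := mul_le_mul_of_nonneg_left h2 (by positivity)

private theorem fu_ne (τ : ℂ) {η c : ℝ} (hη : 0 < η)
    (hc : η ≤ |Real.sin (c - fuAng τ)|) : (Real.sin c : ℂ) - τ * (Real.cos c : ℂ) ≠ 0 := by
  intro h
  have h1 := fu_low τ hη hc
  rw [h, norm_zero] at h1
  have : 0 < (η / 2) ^ 2 * (1 + τ.re ^ 2 + τ.im ^ 2) := by positivity
  linarith

private theorem fu_prod {K : ℝ} (hK : 0 ≤ K) (f g : ℂ → ℝ) (m : Multiset ℂ)
    (hf : ∀ τ ∈ m, 0 ≤ f τ) (h : ∀ τ ∈ m, f τ ≤ K * g τ) (hg : ∀ τ ∈ m, 0 ≤ g τ) :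
    (m.map f).prod ≤ K ^ Multiset.card m * (m.map g).prod := by
  induction m using Multiset.induction_on with
  | empty => simp
  | cons a m ih =>
    rw [Multiset.map_cons, Multiset.prod_cons, Multiset.map_cons, Multiset.prod_cons,
      Multiset.card_cons, pow_succ]
    have h1 := ih (fun τ hτ => hf τ (Multiset.mem_cons_of_mem hτ))
      (fun τ hτ => h τ (Multiset.mem_cons_of_mem hτ))
      (fun τ hτ => hg τ (Multiset.mem_cons_of_mem hτ))
    have h2 := h a (Multiset.mem_cons_self a m)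
    have h3 := hf a (Multiset.mem_cons_self a m)
    have h4 : 0 ≤ (m.map f).prod := by
      apply Multiset.prod_nonneg
      intro x hx
      obtain ⟨τ, hτ, rfl⟩ := Multiset.mem_map.mp hx
      exact hf τ (Multiset.mem_cons_of_mem hτ)
    calc f a * (m.map f).prod ≤ (K * g a) * (K ^ Multiset.card m * (m.map g).prod) :=
          mul_le_mul h2 h1 h4 (mul_nonneg hK (hg a (Multiset.mem_cons_self a m)))
      _ = _ := by ring

/-- the polynomial of the form -/
private noncomputable def fuPol {B : ℕ} (β : Fin (B + 1) → ℝ) : Polynomial ℂ :=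
  ∑ j : Fin (B + 1), Polynomial.C (β j : ℂ) * Polynomial.X ^ (j : ℕ)

private theorem fu_coeff {B : ℕ} (β : Fin (B + 1) → ℝ) (j : Fin (B + 1)) :
    (fuPol β).coeff j = (β j : ℂ) := by
  unfold fuPol
  rw [Polynomial.finsetSum_coeff, Finset.sum_eq_single j]
  · rw [Polynomial.coeff_C_mul_X_pow, if_pos rfl]
  · intro i _ hij
    rw [Polynomial.coeff_C_mul_X_pow, if_neg]
    intro h
    exact hij (Fin.ext h.symm)
  · simp

private theorem fu_deg {B : ℕ} (β : Fin (B + 1) → ℝ) : (fuPol β).natDegree ≤ B := by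
  unfold fuPol
  apply Polynomial.natDegree_sum_le_of_forall_le
  intro j _
  exact (Polynomial.natDegree_C_mul_X_pow_le _ _).trans (by omega)

private theorem fu_form {B : ℕ} (β : Fin (B + 1) → ℝ) {c : ℝ} (hc : Real.cos c ≠ 0) :
    ((bform β c : ℝ) : ℂ) = (fuPol β).leadingCoeff *
      (Real.cos c : ℂ) ^ (B - Multiset.card (fuPol β).roots) *
      ((fuPol β).roots.map fun τ => (Real.sin c : ℂ) - τ * (Real.cos c : ℂ)).prod := by
  have hc' : (Real.cos c : ℂ) ≠ 0 := by exact_mod_cast hc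
  have hcard : Multiset.card (fuPol β).roots ≤ B := by
    rw [IsAlgClosed.card_roots_eq_natDegree]
    exact fu_deg β
  have h1 : ((bform β c : ℝ) : ℂ) = (Real.cos c : ℂ) ^ B *
      (fuPol β).eval ((Real.sin c : ℂ) / (Real.cos c : ℂ)) := by
    unfold bform fuPol
    rw [Polynomial.eval_finsetSum, Finset.mul_sum]
    push_cast
    apply Finset.sum_congr rfl
    intro j _
    rw [Polynomial.eval_mul, Polynomial.eval_C, Polynomial.eval_pow, Polynomial.eval_X, div_pow]
    have hj : (Complex.cos (c : ℂ)) ^ B = Complex.cos (c : ℂ) ^ (B - (j : ℕ)) *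
        Complex.cos (c : ℂ) ^ (j : ℕ) := by
      rw [← pow_add]
      congr 1
      omega
    have hc2 : Complex.cos (c : ℂ) ≠ 0 := by
      rw [← Complex.ofReal_cos]
      exact hc'
    rw [hj]
    field_simp
  have h2 : ∀ m : Multiset ℂ, (m.map fun τ => (Real.sin c : ℂ) / (Real.cos c : ℂ) - τ).prod *
      (Real.cos c : ℂ) ^ Multiset.card m =
      (m.map fun τ => (Real.sin c : ℂ) - τ * (Real.cos c : ℂ)).prod := by
    intro m
    induction m using Multiset.induction_on with
    | empty => simp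
    | cons a m ih =>
      rw [Multiset.map_cons, Multiset.prod_cons, Multiset.map_cons, Multiset.prod_cons,
        Multiset.card_cons, pow_succ, ← ih]
      field_simp
  rw [h1, (IsAlgClosed.splits (fuPol β)).eval_eq_prod_roots, ← h2]
  have h3 : (Real.cos c : ℂ) ^ B = (Real.cos c : ℂ) ^ (B - Multiset.card (fuPol β).roots) *
      (Real.cos c : ℂ) ^ Multiset.card (fuPol β).roots := by
    rw [← pow_add, Nat.sub_add_cancel hcard]
  rw [h3]
  ring

/-- the norm form of the factorisation -/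
private theorem fu_abs {B : ℕ} (β : Fin (B + 1) → ℝ) {x : ℝ} (hx0 : Real.cos x ≠ 0) :
    |bform β x| = ‖(fuPol β).leadingCoeff‖ *
      |Real.cos x| ^ (B - Multiset.card (fuPol β).roots) *
      ((fuPol β).roots.map fun τ => ‖(Real.sin x : ℂ) - τ * (Real.cos x : ℂ)‖).prod := by
  have hx := fu_form β hx0
  have h1 := congrArg norm hx
  rw [Complex.norm_real, Real.norm_eq_abs, norm_mul, norm_mul, norm_pow, Complex.norm_real,
    Real.norm_eq_abs] at h1
  rw [h1]
  congr 1
  have h2 := map_multiset_prod (normHom : ℂ →*₀ ℝ)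
    ((fuPol β).roots.map fun τ => (Real.sin x : ℂ) - τ * (Real.cos x : ℂ))
  rw [Multiset.map_map] at h2
  exact h2

/-- elementary properties of `bform` -/
theorem bform_continuous {B : ℕ} (β : Fin (B + 1) → ℝ) : Continuous (bform β) := by
  unfold bform
  fun_prop

/-- As `form_variation` (Rq/FormVar.lean, copy its proof), but the left level `c` is arbitrary. Proof. For
`β = 0` everything is `0`. Otherwise let `e` be the largest index with `β e ≠ 0`; then
`bform β c = β_e (cos c)^(B-e) ∏_{l<e} (sin c - τ_l cos c)` for all `c` with `cos c ≠ 0`, and by continuity (or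
because both sides are homogeneous forms) for all `c`. Each factor is `≤ ρ_l = √(1+|τ_l|²)` for all `c`
(`|cos c| ≤ 1` for the first ones) and `≥ (η/2) ρ_l` (`≥ η`) for the good `c'`. -/
theorem form_upper {B : ℕ} (β : Fin (B + 1) → ℝ) :
    ∃ S : Finset ℝ, S.card ≤ B + 1 ∧ ∀ η : ℝ, 0 < η → η ≤ 1 →
      ∀ c c' : ℝ, (∀ φ ∈ S, η ≤ |Real.sin (c' - φ)|) →
        |bform β c| ≤ (2 / η) ^ B * |bform β c'| := by
  classical
  have hcard : Multiset.card (fuPol β).roots ≤ B := by
    rw [IsAlgClosed.card_roots_eq_natDegree]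
    exact fu_deg β
  refine ⟨insert (Real.pi / 2) ((fuPol β).roots.toFinset.image fuAng), ?_, ?_⟩
  · refine (Finset.card_insert_le _ _).trans ?_
    have h1 : ((fuPol β).roots.toFinset.image fuAng).card ≤ Multiset.card (fuPol β).roots :=
      Finset.card_image_le.trans (Multiset.toFinset_card_le _)
    omega
  intro η hη hη1 c c' hc'
  have hcos : ∀ x : ℝ, (∀ φ ∈ insert (Real.pi / 2) ((fuPol β).roots.toFinset.image fuAng),
      η ≤ |Real.sin (x - φ)|) → η ≤ |Real.cos x| := by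
    intro x hx
    have h1 := hx _ (Finset.mem_insert_self _ _)
    rwa [Real.sin_sub_pi_div_two, abs_neg] at h1
  have hroot : ∀ x : ℝ, (∀ φ ∈ insert (Real.pi / 2) ((fuPol β).roots.toFinset.image fuAng),
      η ≤ |Real.sin (x - φ)|) → ∀ τ ∈ (fuPol β).roots, η ≤ |Real.sin (x - fuAng τ)| := by
    intro x hx τ hτ
    apply hx
    apply Finset.mem_insert_of_mem
    apply Finset.mem_image_of_mem
    exact Multiset.mem_toFinset.mpr hτ
  have hc0' : Real.cos c' ≠ 0 := by
    intro h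
    have h1 := hcos c' hc'
    rw [h, abs_zero] at h1
    linarith
  have key : ∀ d : ℝ, Real.cos d ≠ 0 → |bform β d| ≤ (2 / η) ^ B * |bform β c'| := by
    intro d hd0
    rw [fu_abs β hd0, fu_abs β hc0']
    have hP := fu_prod (K := 2 / η) (by positivity)
      (fun τ => ‖(Real.sin d : ℂ) - τ * (Real.cos d : ℂ)‖)
      (fun τ => ‖(Real.sin c' : ℂ) - τ * (Real.cos c' : ℂ)‖) (fuPol β).roots
      (fun τ _ => norm_nonneg _) (fun τ hτ => fu_factor τ hη (hroot c' hc' τ hτ))
      (fun τ _ => norm_nonneg _)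
    have hC : |Real.cos d| ^ (B - Multiset.card (fuPol β).roots) ≤
        (2 / η) ^ (B - Multiset.card (fuPol β).roots) *
          |Real.cos c'| ^ (B - Multiset.card (fuPol β).roots) := by
      rw [← mul_pow]
      apply pow_le_pow_left₀ (abs_nonneg _)
      have h1 := Real.abs_cos_le_one d
      have h2 := hcos c' hc'
      have h3 : 1 ≤ 2 / η * |Real.cos c'| := by
        calc (1 : ℝ) ≤ 2 := by norm_num
          _ = 2 / η * η := by field_simp
          _ ≤ _ := mul_le_mul_of_nonneg_left h2 (by positivity)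
      linarith
    have hpp : (2 / η) ^ B = (2 / η) ^ (B - Multiset.card (fuPol β).roots) *
        (2 / η) ^ Multiset.card (fuPol β).roots := by
      rw [← pow_add, Nat.sub_add_cancel hcard]
    have hn : 0 ≤ ((fuPol β).roots.map fun τ =>
        ‖(Real.sin d : ℂ) - τ * (Real.cos d : ℂ)‖).prod := by
      apply Multiset.prod_nonneg
      intro x hx
      obtain ⟨τ, -, rfl⟩ := Multiset.mem_map.mp hx
      exact norm_nonneg _
    calc ‖(fuPol β).leadingCoeff‖ * |Real.cos d| ^ (B - Multiset.card (fuPol β).roots) *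
          ((fuPol β).roots.map fun τ => ‖(Real.sin d : ℂ) - τ * (Real.cos d : ℂ)‖).prod
        ≤ ‖(fuPol β).leadingCoeff‖ * ((2 / η) ^ (B - Multiset.card (fuPol β).roots) *
          |Real.cos c'| ^ (B - Multiset.card (fuPol β).roots)) *
          ((2 / η) ^ Multiset.card (fuPol β).roots * ((fuPol β).roots.map fun τ =>
            ‖(Real.sin c' : ℂ) - τ * (Real.cos c' : ℂ)‖).prod) :=
          mul_le_mul (mul_le_mul_of_nonneg_left hC (norm_nonneg _)) hP hn (by positivity)
      _ = _ := by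
        rw [hpp]
        ring
  rcases eq_or_ne (Real.cos c) 0 with h0 | h0
  · have hs : Real.sin c ≠ 0 := by
      intro h
      have := Real.sin_sq_add_cos_sq c
      rw [h, h0] at this
      norm_num at this
    have hcont : Continuous fun t : ℝ => |bform β (c + t)| :=
      ((bform_continuous β).comp (continuous_const.add continuous_id)).abs
    have ht : Tendsto (fun t : ℝ => |bform β (c + t)|) (𝓝[>] (0 : ℝ)) (𝓝 |bform β c|) := by
      have h1 := (hcont.tendsto 0).mono_left (nhdsWithin_le_nhds (s := Set.Ioi (0 : ℝ)))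
      simpa using h1
    refine le_of_tendsto ht ?_
    have hev : ∀ᶠ t : ℝ in 𝓝[>] (0 : ℝ), t ∈ Set.Ioo (0 : ℝ) Real.pi :=
      Ioo_mem_nhdsGT Real.pi_pos
    filter_upwards [hev] with t ht'
    apply key
    rw [Real.cos_add, h0, zero_mul, zero_sub, neg_ne_zero]
    exact mul_ne_zero hs (Real.sin_pos_of_pos_of_lt_pi ht'.1 ht'.2).ne'
  · exact key c h0

theorem bform_period {B : ℕ} (β : Fin (B + 1) → ℝ) (c : ℝ) :
    bform β (c + 2 * Real.pi) = bform β c := by
  unfold bform
  simp only [Real.sin_add_two_pi, Real.cos_add_two_pi]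

theorem bform_lin {B : ℕ} (β β' : Fin (B + 1) → ℝ) (x y c : ℝ) :
    bform (fun j => x * β j + y * β' j) c = x * bform β c + y * bform β' c := by
  unfold bform
  rw [Finset.mul_sum, Finset.mul_sum, ← Finset.sum_add_distrib]
  apply Finset.sum_congr rfl
  intro j _
  ring

end Pool.Agent.Lib.MP_95e7ec_an
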