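import Mathlib
import Pool.Agent.Lib.MP_95e7ec_an.Rw.FormUp
import Pool.Agent.Lib.MP_95e7ec_an.Rq.Density

/-!
# Rw, GoodTheta: the directions where a pair of binary forms is small
-/

set_option autoImplicit false

open Set Filter Topology MeasureTheory
open scoped ContDiff ENNReal

namespace Pool.Agent.Lib.MP_95e7ec_an

private theorem GoodTheta_small {y η : ℝ} (h1 : -(Real.pi / 2) ≤ y) (h2 : y ≤ Real.pi / 2)
    (h : |Real.sin y| < η) : |y| ≤ Real.pi * η / 2 := by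
  have hpi := Real.pi_pos
  have key : ∀ z : ℝ, 0 ≤ z → z ≤ Real.pi / 2 → |Real.sin z| < η → z ≤ Real.pi * η / 2 := by
    intro z hz hz2 hs
    have h3 := Real.mul_le_sin hz hz2
    have h4 : 2 / Real.pi * z < η := lt_of_le_of_lt (h3.trans (le_abs_self _)) hs
    have h5 : z = Real.pi / 2 * (2 / Real.pi * z) := by field_simp
    rw [h5]
    have h6 : Real.pi / 2 * (2 / Real.pi * z) ≤ Real.pi / 2 * η :=
      mul_le_mul_of_nonneg_left h4.le (by positivity)
    linarith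
  rcases le_total 0 y with hy | hy
  · rw [abs_of_nonneg hy]
    exact key y hy h2 h
  · rw [abs_of_nonpos hy]
    apply key (-y) (by linarith) (by linarith)
    rw [Real.sin_neg, abs_neg]
    exact h

private theorem GoodTheta_one (φ : ℝ) {η : ℝ} (hη : 0 ≤ η) :
    volume ({θ : ℝ | |Real.sin (θ - φ)| < η} ∩ Set.Ioc 0 (0 + 2 * Real.pi)) ≤
      ENNReal.ofReal (2 * Real.pi * η) := by
  have hpi := Real.pi_pos
  have h2pi : (0 : ℝ) < 2 * Real.pi := by positivity
  have hopen : IsOpen {θ : ℝ | |Real.sin (θ - φ)| < η} := by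
    apply isOpen_lt _ continuous_const
    exact (Real.continuous_sin.comp (continuous_id.sub continuous_const)).abs
  have hinv : ∀ g : AddSubgroup.zmultiples (2 * Real.pi),
      (fun x : ℝ => g +ᵥ x) ⁻¹' {θ : ℝ | |Real.sin (θ - φ)| < η} =
        {θ : ℝ | |Real.sin (θ - φ)| < η} := by
    rintro ⟨g, hg⟩
    obtain ⟨n, rfl⟩ := AddSubgroup.mem_zmultiples_iff.1 hg
    ext x
    simp only [Set.mem_preimage, Set.mem_setOf_eq]
    have h1 : ((⟨n • (2 * Real.pi), hg⟩ : AddSubgroup.zmultiples (2 * Real.pi)) +ᵥ x) =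
        n • (2 * Real.pi) + x := rfl
    rw [h1]
    have h2 : n • (2 * Real.pi) + x - φ = (x - φ) + n * (2 * Real.pi) := by
      rw [zsmul_eq_mul]; ring
    rw [h2, Real.sin_add_int_mul_two_pi]
  have h3 := (isAddFundamentalDomain_Ioc h2pi 0 (volume : Measure ℝ)).measure_set_eq
    (isAddFundamentalDomain_Ioc h2pi (φ - Real.pi / 2) (volume : Measure ℝ))
    hopen.measurableSet hinv
  rw [h3]
  have hsub : {θ : ℝ | |Real.sin (θ - φ)| < η} ∩
      Set.Ioc (φ - Real.pi / 2) (φ - Real.pi / 2 + 2 * Real.pi) ⊆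
      Set.Icc (φ - Real.pi * η / 2) (φ + Real.pi * η / 2) ∪
      Set.Icc (φ + Real.pi - Real.pi * η / 2) (φ + Real.pi + Real.pi * η / 2) := by
    rintro x ⟨hx, hx1, hx2⟩
    simp only [Set.mem_setOf_eq] at hx
    rcases le_or_gt x (φ + Real.pi / 2) with h | h
    · left
      have h4 := GoodTheta_small (y := x - φ) (by linarith) (by linarith) hx
      rw [abs_le] at h4
      constructor <;> linarith [h4.1, h4.2]
    · right
      have h5 : |Real.sin (x - φ - Real.pi)| < η := by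
        rw [Real.sin_sub_pi, abs_neg]
        exact hx
      have h4 := GoodTheta_small (y := x - φ - Real.pi) (by linarith) (by linarith) h5
      rw [abs_le] at h4
      constructor <;> linarith [h4.1, h4.2]
  refine (measure_mono hsub).trans ((measure_union_le _ _).trans ?_)
  rw [Real.volume_Icc, Real.volume_Icc, ← ENNReal.ofReal_add]
  · apply ENNReal.ofReal_le_ofReal
    linarith
  · have : 0 ≤ Real.pi * η := by positivity
    linarith
  · have : 0 ≤ Real.pi * η := by positivity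
    linarith

/-- Proof. Subadditivity; for one `φ` the set `{θ ∈ (0,2π] | |sin (θ-φ)| < η}` has measure
`4 arcsin η ≤ 2πη`: translate by `φ` (the function is `π`-periodic), the set
`{x ∈ (-π/2, π/2] | |sin x| < η}` is contained in `[-arcsin η, arcsin η]`, or use
`|sin x| ≥ (2/π) |x|` for `|x| ≤ π/2` (`Real.mul_le_sin`), which gives `|x| < π η/2`. -/
theorem sin_small_volume (S : Finset ℝ) {η : ℝ} (hη : 0 ≤ η) :
    volume {θ : ℝ | θ ∈ Set.Ioc 0 (2 * Real.pi) ∧ ∃ φ ∈ S, |Real.sin (θ - φ)| < η} ≤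
      ENNReal.ofReal (S.card * (2 * Real.pi * η)) := by
  have hpi := Real.pi_pos
  have h1 : {θ : ℝ | θ ∈ Set.Ioc 0 (2 * Real.pi) ∧ ∃ φ ∈ S, |Real.sin (θ - φ)| < η} ⊆
      ⋃ φ ∈ S, ({θ : ℝ | |Real.sin (θ - φ)| < η} ∩ Set.Ioc 0 (0 + 2 * Real.pi)) := by
    rintro x ⟨hx, φ, hφ, h⟩
    rw [Set.mem_iUnion₂]
    exact ⟨φ, hφ, h, by rw [zero_add]; exact hx⟩
  refine (measure_mono h1).trans ((measure_biUnion_finset_le _ _).trans ?_)
  refine (Finset.sum_le_sum fun φ _ => GoodTheta_one φ hη).trans ?_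
  rw [Finset.sum_const, nsmul_eq_mul, ENNReal.ofReal_mul (Nat.cast_nonneg _),
    ENNReal.ofReal_natCast]

/-- The set of the directions where the pair of forms is small. Proof. Let `S` be the union of the two
sets of `form_upper` (`B = k`), `S.card ≤ 2(k+1) ≤ 2(d+1)`, `η = b/(13(d+1)) ≤ 1`. If `θ` is good for `S`
then `nm (bform β θ', bform β' θ') ≤ (2/η)^k nm (bform β θ, bform β' θ)` for all `θ'` (square, both
components), so with `θ' = θs`: `ν ≤ (2/η)^d nm (...)`, i.e. `nm (...) ≥ (η/2)^d ν`. So the set in question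
is contained in the set of `sin_small_volume`, of measure `≤ 2(d+1) · 2π η ≤ b` (`4π ≤ 13`). -/
theorem small_dirs {k d : ℕ} (hkd : k ≤ d) (β β' : Fin (k + 1) → ℝ) {ν θs : ℝ}
    (hν : nm (bform β θs, bform β' θs) = ν) {b : ℝ} (hb : 0 < b) (hb1 : b ≤ 1) :
    volume {θ : ℝ | θ ∈ Set.Ioc 0 (2 * Real.pi) ∧
      nm (bform β θ, bform β' θ) < (b / (26 * (d + 1))) ^ d * ν} ≤ ENNReal.ofReal b := by
  classical
  obtain ⟨S1, hS1, h1⟩ := form_upper β
  obtain ⟨S2, hS2, h2⟩ := form_upper β'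
  set η : ℝ := b / (13 * (d + 1)) with hη
  have hd : (0 : ℝ) ≤ (d : ℝ) := Nat.cast_nonneg d
  have hη0 : 0 < η := by rw [hη]; positivity
  have hη1 : η ≤ 1 := by
    rw [hη, div_le_one (by positivity)]
    nlinarith
  have hhalf : b / (26 * ((d : ℝ) + 1)) = η / 2 := by
    rw [hη]
    field_simp
    ring
  have hsub : {θ : ℝ | θ ∈ Set.Ioc 0 (2 * Real.pi) ∧
      nm (bform β θ, bform β' θ) < (b / (26 * (d + 1))) ^ d * ν} ⊆
      {θ : ℝ | θ ∈ Set.Ioc 0 (2 * Real.pi) ∧ ∃ φ ∈ S1 ∪ S2, |Real.sin (θ - φ)| < η} := by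
    rintro θ ⟨hθ, hlt⟩
    refine ⟨hθ, ?_⟩
    by_contra hcon
    push Not at hcon
    have g1 := h1 η hη0 hη1 θs θ (fun φ hφ => hcon φ (Finset.mem_union_left _ hφ))
    have g2 := h2 η hη0 hη1 θs θ (fun φ hφ => hcon φ (Finset.mem_union_right _ hφ))
    have hM1 : 1 ≤ 2 / η := by
      rw [le_div_iff₀ hη0]
      linarith
    have hM : (2 / η) ^ k ≤ (2 / η) ^ d := pow_le_pow_right₀ hM1 hkd
    have hM0 : 0 ≤ (2 / η) ^ k := by positivity
    have hνle : ν ≤ (2 / η) ^ d * nm (bform β θ, bform β' θ) := by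
      rw [← hν]
      unfold nm
      simp only
      rw [← Real.sqrt_sq (show 0 ≤ (2 / η) ^ d by positivity), ← Real.sqrt_mul (by positivity)]
      apply Real.sqrt_le_sqrt
      have e1 : bform β θs ^ 2 ≤ ((2 / η) ^ d) ^ 2 * bform β θ ^ 2 := by
        rw [← mul_pow, ← sq_abs (bform β θs), ← sq_abs ((2 / η) ^ d * bform β θ)]
        apply pow_le_pow_left₀ (abs_nonneg _)
        rw [abs_mul, abs_of_nonneg (show 0 ≤ (2 / η) ^ d by positivity)]
        exact g1.trans (mul_le_mul_of_nonneg_right hM (abs_nonneg _))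
      have e2 : bform β' θs ^ 2 ≤ ((2 / η) ^ d) ^ 2 * bform β' θ ^ 2 := by
        rw [← mul_pow, ← sq_abs (bform β' θs), ← sq_abs ((2 / η) ^ d * bform β' θ)]
        apply pow_le_pow_left₀ (abs_nonneg _)
        rw [abs_mul, abs_of_nonneg (show 0 ≤ (2 / η) ^ d by positivity)]
        exact g2.trans (mul_le_mul_of_nonneg_right hM (abs_nonneg _))
      rw [mul_add]
      linarith
    rw [hhalf] at hlt
    have h5 : (η / 2) ^ d * ν ≤ nm (bform β θ, bform β' θ) := by
      have h6 : (η / 2) ^ d * ((2 / η) ^ d * nm (bform β θ, bform β' θ)) =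
          nm (bform β θ, bform β' θ) := by
        rw [← mul_assoc, ← mul_pow]
        have : η / 2 * (2 / η) = 1 := by field_simp
        rw [this, one_pow, one_mul]
      rw [← h6]
      exact mul_le_mul_of_nonneg_left hνle (by positivity)
    linarith
  refine (measure_mono hsub).trans ((sin_small_volume (S1 ∪ S2) hη0.le).trans ?_)
  apply ENNReal.ofReal_le_ofReal
  have hcard : ((S1 ∪ S2).card : ℝ) ≤ 2 * ((d : ℝ) + 1) := by
    have h7 : (S1 ∪ S2).card ≤ S1.card + S2.card := Finset.card_union_le _ _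
    have h8 : (S1 ∪ S2).card ≤ 2 * (d + 1) := by omega
    exact_mod_cast h8
  have hpi := Real.pi_pos
  have hpi2 : Real.pi < 3.15 := Real.pi_lt_d2
  have h9 : (13 * ((d : ℝ) + 1)) * η = b := by
    rw [hη]
    field_simp
  calc ((S1 ∪ S2).card : ℝ) * (2 * Real.pi * η) ≤ (2 * ((d : ℝ) + 1)) * (2 * Real.pi * η) :=
        mul_le_mul_of_nonneg_right hcard (by positivity)
    _ = (4 * Real.pi) * (((d : ℝ) + 1) * η) := by ring
    _ ≤ 13 * (((d : ℝ) + 1) * η) := by
        apply mul_le_mul_of_nonneg_right _ (by positivity)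
        linarith
    _ = b := by rw [← h9]; ring

/-- A ray near `θ₀` on which the component in the direction `c` is not small. Proof. The function
`f θ = sin c · bform β θ + cos c · bform β' θ` is `bform` of a combination (`bform_lin`), and
`f θs = ν sin (c + ψ)`, `|f θs| ≥ η₁ ν`. Let `S` be the set of `form_upper` for it (`S.card ≤ k+1`),
`exists_good` with `t = m`, `x = θ₀` gives `h` such that `θ₀ + h` is good with
`η₂ = m/(4(S.card+1)) ≥ m/(4(k+2))`: `|f θs| ≤ (2/η₂)^k |f (θ₀+h)|`, and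
`(η₂/2)^k ≥ (m/(8(d+2)))^k ≥ (m/(8(d+2)))^d`. -/
theorem good_ray {k d : ℕ} (hkd : k ≤ d) (β β' : Fin (k + 1) → ℝ) {ν θs ψ : ℝ} (hν : 0 ≤ ν)
    (h1 : bform β θs = ν * Real.cos ψ) (h2 : bform β' θs = ν * Real.sin ψ) {η₁ c : ℝ}
    (hη : 0 < η₁) (hc : η₁ ≤ |Real.sin (c + ψ)|) {m : ℝ} (hm : 0 < m) (hm1 : m ≤ 1) (θ₀ : ℝ) :
    ∃ h : ℝ, 0 ≤ h ∧ h ≤ m ∧ η₁ * (m / (8 * (d + 2))) ^ d * ν ≤
      |Real.sin c * bform β (θ₀ + h) + Real.cos c * bform β' (θ₀ + h)| := by
  obtain ⟨S, hS, hform⟩ := form_upper (fun j => Real.sin c * β j + Real.cos c * β' j)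
  obtain ⟨x, hx1, hx2, hx⟩ := exists_good S hm hm1 θ₀
  refine ⟨x - θ₀, by linarith, by linarith, ?_⟩
  have hx0 : θ₀ + (x - θ₀) = x := by ring
  rw [hx0, ← bform_lin β β' (Real.sin c) (Real.cos c) x]
  have hd : (0 : ℝ) ≤ (d : ℝ) := Nat.cast_nonneg d
  have hk : (0 : ℝ) ≤ (k : ℝ) := Nat.cast_nonneg k
  have hkd' : (k : ℝ) ≤ (d : ℝ) := by exact_mod_cast hkd
  set η₂ : ℝ := m / (4 * ((k : ℝ) + 2)) with hη2
  have hη20 : 0 < η₂ := by rw [hη2]; positivity
  have hη21 : η₂ ≤ 1 := by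
    rw [hη2, div_le_one (by positivity)]
    linarith
  have hS' : (S.card : ℝ) ≤ (k : ℝ) + 1 := by exact_mod_cast hS
  have hgood : ∀ φ ∈ S, η₂ ≤ |Real.sin (x - φ)| := by
    intro φ hφ
    refine le_trans ?_ (hx φ hφ)
    rw [hη2]
    apply div_le_div_of_nonneg_left hm.le (by positivity)
    linarith
  have h3 := hform η₂ hη20 hη21 θs x hgood
  have h4 : |bform (fun j => Real.sin c * β j + Real.cos c * β' j) θs| =
      ν * |Real.sin (c + ψ)| := by
    rw [bform_lin, h1, h2, Real.sin_add]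
    rw [show Real.sin c * (ν * Real.cos ψ) + Real.cos c * (ν * Real.sin ψ) =
      ν * (Real.sin c * Real.cos ψ + Real.cos c * Real.sin ψ) by ring, abs_mul, abs_of_nonneg hν]
  rw [h4] at h3
  set F : ℝ := |bform (fun j => Real.sin c * β j + Real.cos c * β' j) x| with hF
  have hF0 : 0 ≤ F := abs_nonneg _
  have h5 : (η₂ / 2) ^ k * (ν * |Real.sin (c + ψ)|) ≤ F := by
    have h6 : (η₂ / 2) ^ k * ((2 / η₂) ^ k * F) = F := by
      rw [← mul_assoc, ← mul_pow]
      have : η₂ / 2 * (2 / η₂) = 1 := by field_simp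
      rw [this, one_pow, one_mul]
    calc (η₂ / 2) ^ k * (ν * |Real.sin (c + ψ)|) ≤ (η₂ / 2) ^ k * ((2 / η₂) ^ k * F) :=
          mul_le_mul_of_nonneg_left h3 (by positivity)
      _ = F := h6
  have h7 : η₂ / 2 = m / (8 * ((k : ℝ) + 2)) := by
    rw [hη2]
    field_simp
    ring
  have h8 : (m / (8 * ((d : ℝ) + 2))) ^ d ≤ (η₂ / 2) ^ k := by
    have h9 : m / (8 * ((d : ℝ) + 2)) ≤ η₂ / 2 := by
      rw [h7]
      apply div_le_div_of_nonneg_left hm.le (by positivity)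
      linarith
    have h10 : m / (8 * ((d : ℝ) + 2)) ≤ 1 := by
      rw [div_le_one (by positivity)]
      linarith
    have h11 : 0 ≤ m / (8 * ((d : ℝ) + 2)) := by positivity
    calc (m / (8 * ((d : ℝ) + 2))) ^ d ≤ (m / (8 * ((d : ℝ) + 2))) ^ k :=
          pow_le_pow_of_le_one h11 h10 hkd
      _ ≤ (η₂ / 2) ^ k := pow_le_pow_left₀ h11 h9 k
  calc η₁ * (m / (8 * ((d : ℝ) + 2))) ^ d * ν
      = (m / (8 * ((d : ℝ) + 2))) ^ d * (ν * η₁) := by ring
    _ ≤ (η₂ / 2) ^ k * (ν * |Real.sin (c + ψ)|) := by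
        apply mul_le_mul h8 _ (by positivity) (by positivity)
        exact mul_le_mul_of_nonneg_left hc hν
    _ ≤ F := h5

end Pool.Agent.Lib.MP_95e7ec_an
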