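import Mathlib
import Pool.Agent.Lib.MP_95e7ec_an.Rq.Defs

/-!
# Rw, HomDec: the homogeneous parts of a polynomial in logarithmic polar coordinates
-/

set_option autoImplicit false

open Set Filter Topology MeasureTheory
open scoped ContDiff ENNReal

namespace Pool.Agent.Lib.MP_95e7ec_an

private theorem homdec_bform_add {B : ℕ} (β γ : Fin (B + 1) → ℝ) (c : ℝ) :
    bform (fun j => β j + γ j) c = bform β c + bform γ c := by
  unfold bform
  rw [← Finset.sum_add_distrib]
  exact Finset.sum_congr rfl fun j _ => by ring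

private theorem homdec_zero {B : ℕ} (c : ℝ) : bform (fun _ : Fin (B + 1) => (0 : ℝ)) c = 0 := by
  unfold bform
  simp

private theorem homdec_mono {d : ℕ} (s : Fin 2 →₀ ℕ) (a : ℝ) (hs : s 0 + s 1 ≤ d) :
    ∃ β : (k : Fin (d + 1)) → Fin ((k : ℕ) + 1) → ℝ, ∀ p : ℝ × ℝ,
      ev (MvPolynomial.monomial s a) (cyl p) =
        ∑ k : Fin (d + 1), Real.exp (((k : ℕ) : ℝ) * p.1) * bform (β k) p.2 := by
  refine ⟨fun k j => if (k : ℕ) = s 0 + s 1 ∧ (j : ℕ) = s 1 then a else 0, fun p => ?_⟩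
  rw [Finset.sum_eq_single (⟨s 0 + s 1, by omega⟩ : Fin (d + 1))]
  · have hb : bform (fun j : Fin (s 0 + s 1 + 1) =>
        if s 0 + s 1 = s 0 + s 1 ∧ (j : ℕ) = s 1 then a else 0) p.2 =
        a * (Real.cos p.2 ^ (s 0) * Real.sin p.2 ^ (s 1)) := by
      unfold bform
      rw [Finset.sum_eq_single (⟨s 1, by omega⟩ : Fin (s 0 + s 1 + 1))]
      · simp
      · intro j _ hj
        have : ¬ (j : ℕ) = s 1 := fun h => hj (Fin.ext h)
        simp [this]
      · intro h
        exact absurd (Finset.mem_univ _) h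
    have hev : ev (MvPolynomial.monomial s a) (cyl p) =
        a * ((cyl p).1 ^ (s 0) * (cyl p).2 ^ (s 1)) := by
      unfold ev
      rw [MvPolynomial.eval_monomial, Finsupp.prod_fintype _ _ (fun i => pow_zero _)]
      simp [Fin.prod_univ_two]
    refine hev.trans ?_
    change _ = Real.exp (((s 0 + s 1 : ℕ) : ℝ) * p.1) * bform (fun j : Fin (s 0 + s 1 + 1) =>
        if s 0 + s 1 = s 0 + s 1 ∧ (j : ℕ) = s 1 then a else 0) p.2
    rw [hb, Real.exp_nat_mul]
    simp only [cyl]
    ring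
  · intro k _ hk
    have hk' : ¬ (k : ℕ) = s 0 + s 1 := fun h => hk (Fin.ext h)
    have h0 : (fun j : Fin ((k : ℕ) + 1) =>
        if (k : ℕ) = s 0 + s 1 ∧ (j : ℕ) = s 1 then a else 0) = fun _ => (0 : ℝ) := by
      funext j
      rw [if_neg fun h => hk' h.1]
    dsimp only
    rw [h0, homdec_zero, mul_zero]
  · intro h
    exact absurd (Finset.mem_univ _) h

/-- Proof. `β k j` is the coefficient of `x^(k-j) y^j`. `ev F z = ∑_{s ∈ F.support} coeff s F * z.1^(s 0) * z.2^(s 1)`
(`MvPolynomial.eval_eq`), `s 0 + s 1 ≤ totalDegree F ≤ d`; with `z = cyl p` a monomial with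
`s 0 + s 1 = k` is `e^{k p.1} cos^(k - s 1) sin^(s 1)`. (Or by induction on `F`, or with
`MvPolynomial.homogeneousComponent`.) -/
theorem exists_forms {d : ℕ} {F : MvPolynomial (Fin 2) ℝ} (hF : F.totalDegree ≤ d) :
    ∃ β : (k : Fin (d + 1)) → Fin ((k : ℕ) + 1) → ℝ, ∀ p : ℝ × ℝ,
      ev F (cyl p) = ∑ k : Fin (d + 1), Real.exp (((k : ℕ) : ℝ) * p.1) * bform (β k) p.2 := by
  have key : ∀ T : Finset (Fin 2 →₀ ℕ), T ⊆ F.support →
      ∃ β : (k : Fin (d + 1)) → Fin ((k : ℕ) + 1) → ℝ, ∀ p : ℝ × ℝ,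
        ev (∑ s ∈ T, MvPolynomial.monomial s (F.coeff s)) (cyl p) =
          ∑ k : Fin (d + 1), Real.exp (((k : ℕ) : ℝ) * p.1) * bform (β k) p.2 := by
    intro T
    induction T using Finset.induction_on with
    | empty =>
      intro _
      refine ⟨fun _ _ => 0, fun p => ?_⟩
      have h0 : ev (∑ s ∈ (∅ : Finset (Fin 2 →₀ ℕ)), MvPolynomial.monomial s (F.coeff s))
          (cyl p) = 0 := by
        simp [ev]
      rw [h0]
      exact (Finset.sum_eq_zero fun k _ => by rw [homdec_zero, mul_zero]).symm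
    | insert s T hs ih =>
      intro hT
      obtain ⟨β, hβ⟩ := ih fun x hx => hT (Finset.mem_insert_of_mem hx)
      have hsF : s ∈ F.support := hT (Finset.mem_insert_self _ _)
      have hdeg : s 0 + s 1 ≤ d := by
        have h1 := MvPolynomial.le_totalDegree hsF
        have h2 : (s.sum fun _ e => e) = s 0 + s 1 := by
          rw [Finsupp.sum_fintype _ _ (fun i => rfl), Fin.sum_univ_two]
        rw [h2] at h1
        exact h1.trans hF
      obtain ⟨γ, hγ⟩ := homdec_mono (d := d) s (F.coeff s) hdeg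
      refine ⟨fun k j => γ k j + β k j, fun p => ?_⟩
      have hadd : ev (∑ s ∈ insert s T, MvPolynomial.monomial s (F.coeff s)) (cyl p) =
          ev (MvPolynomial.monomial s (F.coeff s)) (cyl p) +
            ev (∑ s ∈ T, MvPolynomial.monomial s (F.coeff s)) (cyl p) := by
        rw [Finset.sum_insert hs]
        exact map_add _ _ _
      rw [hadd, hβ, hγ, ← Finset.sum_add_distrib]
      exact Finset.sum_congr rfl fun k _ => by rw [homdec_bform_add, mul_add]
  obtain ⟨β, hβ⟩ := key F.support le_rfl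
  refine ⟨β, fun p => ?_⟩
  rw [← hβ, MvPolynomial.support_sum_monomial_coeff]

end Pool.Agent.Lib.MP_95e7ec_an
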