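import Mathlib
import Pool.Agent.Lib.MP_95e7ec_an.Rw.HomDec
import Pool.Agent.Lib.MP_95e7ec_an.Rw.GoodTheta
import Pool.Agent.Lib.MP_95e7ec_an.Rw.Domin
import Pool.Agent.Lib.MP_95e7ec_an.Rq.Chain
import Pool.Agent.Lib.MP_95e7ec_an.Rb.Basic

/-!
# Rw, DomData: the dominating terms of a polynomial field
-/

set_option autoImplicit false

open Set Filter Topology MeasureTheory
open scoped ContDiff ENNReal

namespace Pool.Agent.Lib.MP_95e7ec_an

/-- the data of the dominating terms of the field `Φ` -/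
structure DomDat (n : ℕ) (Φ : ℝ × ℝ → ℝ × ℝ) (U S : Finset ℝ) (W : Fin (n + 2) → ℝ → ℝ × ℝ)
    (ν : Fin (n + 2) → ℝ) : Prop where
  cardU : U.card ≤ (n + 2) ^ 2
  cardS : S.card ≤ n + 2
  cont : ∀ k, Continuous (W k)
  per : ∀ k θ, W k (θ + 2 * Real.pi) = W k θ
  small : ∀ k, ∀ b : ℝ, 0 < b → b ≤ 1 →
    volume {θ : ℝ | θ ∈ Set.Ioc 0 (2 * Real.pi) ∧
      nm (W k θ) < (b / (26 * (n + 2))) ^ (n + 1) * ν k} ≤ ENNReal.ofReal b
  ray : ∀ k, ∀ η₁ c : ℝ, 0 < η₁ → (∀ φ ∈ S, η₁ ≤ |Real.sin (c - φ)|) →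
    ∀ m : ℝ, 0 < m → m ≤ 1 → ∀ θ₀ : ℝ, ∃ h : ℝ, 0 ≤ h ∧ h ≤ m ∧
      η₁ * (m / (8 * (n + 3))) ^ (n + 1) * ν k ≤
        |Real.sin c * (W k (θ₀ + h)).1 + Real.cos c * (W k (θ₀ + h)).2|
  dom : ∀ D : ℝ, 0 < D → ∀ I : Set ℝ, I.OrdConnected → I.Nonempty →
    (∀ s ∈ I, ∀ u ∈ U, D < |s - u|) → ∃ k, 0 < ν k ∧ ∀ p : ℝ × ℝ, p.1 ∈ I →
      nm (Φ p - Real.exp (((k : ℕ) : ℝ) * p.1) • W k p.2) ≤
        (n + 1) * Real.exp (-D) * ν k * Real.exp (((k : ℕ) : ℝ) * p.1)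

private theorem domdata_cont {B : ℕ} (β : Fin (B + 1) → ℝ) : Continuous (bform β) := by
  unfold bform
  fun_prop

private theorem domdata_per {B : ℕ} (β : Fin (B + 1) → ℝ) (θ : ℝ) :
    bform β (θ + 2 * Real.pi) = bform β θ := by
  unfold bform
  rw [Real.cos_add_two_pi, Real.sin_add_two_pi]

private theorem domdata_max {W : ℝ → ℝ × ℝ} (hc : Continuous W)
    (hp : ∀ θ, W (θ + 2 * Real.pi) = W θ) : ∃ θs : ℝ, ∀ θ, nm (W θ) ≤ nm (W θs) := by
  have hnm : Continuous fun θ => nm (W θ) := by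
    unfold nm
    fun_prop
  have hne : (Set.Icc (0 : ℝ) (2 * Real.pi)).Nonempty := ⟨0, le_rfl, by positivity⟩
  obtain ⟨θs, _, hmax⟩ := isCompact_Icc.exists_isMaxOn hne hnm.continuousOn
  refine ⟨θs, fun θ => ?_⟩
  have hper : Function.Periodic (fun θ => nm (W θ)) (2 * Real.pi) := fun x => by
    simp only [hp x]
  obtain ⟨y, hy, hxy⟩ := hper.exists_mem_Ico₀ (by positivity) θ
  have h1 := hmax ⟨hy.1, hy.2.le⟩
  have h2 : nm (W θ) = nm (W y) := hxy
  rw [h2]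
  exact h1

private theorem domdata_sum {ι : Type} (T : Finset ι) (V : ι → ℝ × ℝ) (c : ι → ℝ)
    (h : ∀ i ∈ T, nm (V i) ≤ c i) : nm (∑ i ∈ T, V i) ≤ ∑ i ∈ T, c i := by
  classical
  induction T using Finset.induction_on with
  | empty =>
    rw [Finset.sum_empty, Finset.sum_empty, rb_nm_zero]
  | insert i T hi ih =>
    rw [Finset.sum_insert hi, Finset.sum_insert hi]
    exact (rb_nm_add_le _ _).trans (add_le_add (h i (Finset.mem_insert_self _ _))
      (ih fun j hj => h j (Finset.mem_insert_of_mem hj)))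

/-- Proof. `exists_forms` for `wre P Q` and `wim P Q` (`totalDegree_wre`, `totalDegree_wim`, `d = n+1`),
`W k θ = (bform (β k) θ, bform (β' k) θ)`, `ν k = max_θ nm (W k θ)`, attained at a point `θs`
(continuous and periodic: compactness of `[0,2π]`), `W k θs = ν k (cos ψ_k, sin ψ_k)`
(`rb_exists_dir`), `S` the set of the `-ψ_k` (`sin (c + ψ) = sin (c - (-ψ))`). `small`: `small_dirs`; `ray`:
`good_ray`. `dom`: `Φ p = ∑_k e^{k p.1} W k p.2` (`ev_wre`, `ev_wim`, `cf`), so by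
`exists_dominant` (some `ν k ≠ 0`: otherwise `cf (vf P Q) = 0` everywhere, against `hne`)
`nm (Φ p - e^{k p.1} W k) ≤ ∑_{l≠k} e^{l p.1} ν l ≤ (n+1) e^{-D} ν k e^{k p.1}`
(`rb_nm_add_le`; induction over a Finset). -/
theorem exists_domDat (n : ℕ) {P Q : MvPolynomial (Fin 2) ℝ} (hP : P.totalDegree ≤ n)
    (hQ : Q.totalDegree ≤ n) (hne : ∃ p, cf (vf P Q) p ≠ 0) :
    ∃ (U S : Finset ℝ) (W : Fin (n + 2) → ℝ → ℝ × ℝ) (ν : Fin (n + 2) → ℝ),
      DomDat n (cf (vf P Q)) U S W ν := by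
  classical
  obtain ⟨β, hβ⟩ := exists_forms (totalDegree_wre hP hQ)
  obtain ⟨β', hβ'⟩ := exists_forms (totalDegree_wim hP hQ)
  set W : Fin (n + 2) → ℝ → ℝ × ℝ := fun k θ => (bform (β k) θ, bform (β' k) θ) with hW
  have hWc : ∀ k, Continuous (W k) := fun k =>
    (domdata_cont (β k)).prodMk (domdata_cont (β' k))
  have hWp : ∀ k θ, W k (θ + 2 * Real.pi) = W k θ := fun k θ => by
    simp only [hW, domdata_per]
  have hΦ : ∀ p : ℝ × ℝ, cf (vf P Q) p =
      ∑ k : Fin (n + 2), Real.exp (((k : ℕ) : ℝ) * p.1) • W k p.2 := by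
    intro p
    apply Prod.ext
    · have h1 : (cf (vf P Q) p).1 = ev (wre P Q) (cyl p) := (ev_wre P Q (cyl p)).symm
      rw [h1, hβ, Prod.fst_sum]
      rfl
    · have h1 : (cf (vf P Q) p).2 = ev (wim P Q) (cyl p) := (ev_wim P Q (cyl p)).symm
      rw [h1, hβ', Prod.snd_sum]
      rfl
  have hmax := fun k => domdata_max (hWc k) (hWp k)
  choose θs hθs using hmax
  set ν : Fin (n + 2) → ℝ := fun k => nm (W k (θs k)) with hν
  have hν0 : ∀ k, 0 ≤ ν k := fun k => rb_nm_nonneg _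
  have hdir := fun k => rb_exists_dir (W k (θs k))
  choose ψ hψ using hdir
  have hνne : ∃ k, ν k ≠ 0 := by
    by_contra hcon
    push Not at hcon
    obtain ⟨p, hp⟩ := hne
    apply hp
    rw [hΦ p]
    refine Finset.sum_eq_zero fun k _ => ?_
    have h1 : nm (W k p.2) ≤ 0 := (hθs k p.2).trans (hcon k).le
    have h2 : W k p.2 = 0 := rb_nm_eq_zero.1 (le_antisymm h1 (rb_nm_nonneg _))
    rw [h2, smul_zero]
  obtain ⟨U, hU, hdom⟩ := exists_dominant (d := n + 1) ν hν0 hνne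
  refine ⟨U, Finset.univ.image fun k => -ψ k, W, ν, ?_⟩
  constructor
  · exact hU
  · refine Finset.card_image_le.trans ?_
    rw [Finset.card_univ, Fintype.card_fin]
  · exact hWc
  · exact hWp
  · intro k b hb hb1
    have h := small_dirs (k := (k : ℕ)) (d := n + 1) (Nat.lt_succ_iff.1 k.2) (β k) (β' k)
      (ν := ν k) (θs := θs k) rfl hb hb1
    have hcast : (((n + 1 : ℕ) : ℝ) + 1) = (n : ℝ) + 2 := by push_cast; ring
    rw [hcast] at h
    exact h
  · intro k η₁ c hη₁ hc m hm hm1 θ₀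
    have hcψ : η₁ ≤ |Real.sin (c + ψ k)| := by
      have h := hc (-ψ k) (Finset.mem_image_of_mem _ (Finset.mem_univ k))
      rwa [sub_neg_eq_add] at h
    have h1 : bform (β k) (θs k) = ν k * Real.cos (ψ k) := congrArg Prod.fst (hψ k)
    have h2 : bform (β' k) (θs k) = ν k * Real.sin (ψ k) := congrArg Prod.snd (hψ k)
    obtain ⟨h, hh0, hhm, hh⟩ := good_ray (k := (k : ℕ)) (d := n + 1) (Nat.lt_succ_iff.1 k.2)
      (β k) (β' k) (hν0 k) h1 h2 hη₁ hcψ hm hm1 θ₀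
    refine ⟨h, hh0, hhm, ?_⟩
    have hcast : (((n + 1 : ℕ) : ℝ) + 2) = (n : ℝ) + 3 := by push_cast; ring
    rw [hcast] at hh
    exact hh
  · intro D hD I hI hIne hfar
    obtain ⟨k, hk0, hk⟩ := hdom D hD I hI hIne hfar
    refine ⟨k, hk0, fun p hp => ?_⟩
    have hsub : cf (vf P Q) p - Real.exp (((k : ℕ) : ℝ) * p.1) • W k p.2 =
        ∑ l ∈ Finset.univ.erase k, Real.exp (((l : ℕ) : ℝ) * p.1) • W l p.2 := by
      rw [hΦ p, ← Finset.add_sum_erase _ _ (Finset.mem_univ k)]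
      exact add_sub_cancel_left _ _
    rw [hsub]
    have hle := domdata_sum (Finset.univ.erase k)
      (fun l => Real.exp (((l : ℕ) : ℝ) * p.1) • W l p.2)
      (fun _ => Real.exp (-D) * (ν k * Real.exp (((k : ℕ) : ℝ) * p.1))) (fun l hl => by
        have hlk : l ≠ k := Finset.ne_of_mem_erase hl
        rw [rb_nm_smul, abs_of_pos (Real.exp_pos _)]
        have h1 := hk p.1 hp l hlk
        have h2 : Real.exp (((l : ℕ) : ℝ) * p.1) * nm (W l p.2) ≤
            Real.exp (((l : ℕ) : ℝ) * p.1) * ν l :=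
          mul_le_mul_of_nonneg_left (hθs l p.2) (Real.exp_pos _).le
        linarith)
    refine hle.trans (le_of_eq ?_)
    rw [Finset.sum_const, Finset.card_erase_of_mem (Finset.mem_univ k), Finset.card_univ,
      Fintype.card_fin, nsmul_eq_mul]
    have hcast : ((n + 2 - 1 : ℕ) : ℝ) = (n : ℝ) + 1 := by
      rw [show n + 2 - 1 = n + 1 by omega]
      push_cast
      ring
    rw [hcast]
    ring

end Pool.Agent.Lib.MP_95e7ec_an
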