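import Mathlib
import Pool.Agent.Lib.MP_95e7ec_an.Rq.Defs

/-!
# Rw: the closed orbits of most of the turned fields, second version: definitions

The theorem: for every planar polynomial field `X` of degree at most `n` and every `0 < ε ≤ 1` the set
of the angles `a` in `(0,2π)` such that the turned field `e^{ia} X` has more than
`10^10 n⁶ log (2n/ε) / ε` closed orbits has outer measure at most `ε`.

New with respect to Rq: in a zone where one homogeneous term of the field dominates, two angles with a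
closed orbit in the zone are close (`pinch`), so that the zones carry no closed orbits for most
angles; and the width of the exceptional intervals is only `100 n log (2n/t)`.
-/

set_option autoImplicit false

open Set Filter Topology MeasureTheory
open scoped ContDiff ENNReal

namespace Pool.Agent.Lib.MP_95e7ec_an

/-- One term `e^{kρ} W(θ)` dominates the field `Φ` for `ρ ∈ I`, and `W` is small only on a set of
measure at most `t²`. -/
def Dominated (Φ : ℝ × ℝ → ℝ × ℝ) (t : ℝ) (I : Set ℝ) : Prop :=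
  ∃ (k : ℕ) (W : ℝ → ℝ × ℝ) (ν δ κ : ℝ), Continuous W ∧ (∀ θ, W (θ + 2 * Real.pi) = W θ) ∧
    0 < ν ∧ 0 ≤ δ ∧ 0 < κ ∧ 200 * δ ≤ κ * t ^ 3 ∧
    volume {θ : ℝ | θ ∈ Set.Ioc 0 (2 * Real.pi) ∧ nm (W θ) < 2 * κ * ν} ≤
      ENNReal.ofReal (t ^ 2) ∧
    ∀ p : ℝ × ℝ, p.1 ∈ I →
      nm (Φ p - Real.exp (k * p.1) • W p.2) ≤ δ * ν * Real.exp (k * p.1)

/-- the data of the zones: a finite set `U` of exceptional centres, a radius `D`, a slope `m`, a set `G` of
good levels; between the exceptional intervals the field is dominated -/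
structure ZDat (Φ : ℝ × ℝ → ℝ × ℝ) (t m D : ℝ) (G : Set ℝ) (U : Finset ℝ) : Prop where
  m_le : m ≤ Real.tan (2 * t)
  dense : ∀ x : ℝ, ∃ c ∈ G, x ≤ c ∧ c ≤ x + t
  D_nonneg : 0 ≤ D
  ne : ∀ p : ℝ × ℝ, (∀ u ∈ U, D < |p.1 - u|) → Φ p ≠ 0
  slope : ∀ c ∈ G, ∀ p : ℝ × ℝ, (∀ u ∈ U, D < |p.1 - u|) → lev Φ c p = 0 →
    |d1 (lev Φ c) p| < m * |d2 (lev Φ c) p|
  dom : ∀ I : Set ℝ, I.OrdConnected → I.Nonempty → (∀ s ∈ I, ∀ u ∈ U, D < |s - u|) →
    Dominated Φ t I

end Pool.Agent.Lib.MP_95e7ec_an
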