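import Mathlib
import Pool.Agent.Lib.MP_95e7ec_an.KqDefs

/-!
# Rw, Drift: differential inequalities along a closed solution on the cylinder
-/

set_option autoImplicit false

open Set Filter Topology MeasureTheory
open scoped ContDiff ENNReal

namespace Pool.Agent.Lib.MP_95e7ec_an

private theorem drift_aux1 {F : ℝ → ℝ} (hF : Continuous F)
    (hper : ∀ θ, F (θ + 2 * Real.pi) = F θ) (k : ℤ) (θ : ℝ) :
    ∫ x in (0 : ℝ)..(θ + 2 * Real.pi * (k : ℝ)), F x =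
      (∫ x in (0 : ℝ)..θ, F x) + (k : ℝ) * ∫ x in (0 : ℝ)..(2 * Real.pi), F x := by
  have hp : Function.Periodic F (2 * Real.pi) := hper
  have hi : ∀ a b : ℝ, IntervalIntegrable F volume a b := fun a b => hF.intervalIntegrable a b
  have h1 : θ + 2 * Real.pi * (k : ℝ) = θ + k • (2 * Real.pi) := by
    rw [zsmul_eq_mul]; ring
  rw [h1, ← intervalIntegral.integral_add_adjacent_intervals (hi 0 θ) (hi θ _),
    hp.intervalIntegral_add_zsmul_eq k θ hi, hp.intervalIntegral_add_eq θ 0, zero_add,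
    zsmul_eq_mul]

private theorem drift_aux2 {H : ℝ × ℝ → ℝ × ℝ} {σ : ℝ → ℝ × ℝ} {T : ℝ} {k : ℤ}
    (hσ : CylSol H σ T k) {F : ℝ → ℝ} (hF : Continuous F) (s : ℝ) :
    HasDerivAt (fun s => (σ s).1 - ∫ x in (0 : ℝ)..(σ s).2, F x)
      ((H (σ s)).1 - F (σ s).2 * (H (σ s)).2) s := by
  have hd := hσ.2.1 s
  have h1 : HasDerivAt (fun s => (σ s).1) (H (σ s)).1 s := by
    have := (hasFDerivAt_fst (𝕜 := ℝ) (E := ℝ) (F := ℝ) (p := σ s)).comp_hasDerivAt s hd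
    exact this
  have h2 : HasDerivAt (fun s => (σ s).2) (H (σ s)).2 s := by
    have := (hasFDerivAt_snd (𝕜 := ℝ) (E := ℝ) (F := ℝ) (p := σ s)).comp_hasDerivAt s hd
    exact this
  have h3 : HasDerivAt (fun θ => ∫ x in (0 : ℝ)..θ, F x) (F (σ s).2) (σ s).2 :=
    (hF.integral_hasStrictDerivAt 0 (σ s).2).hasDerivAt
  have h4 : HasDerivAt (fun s => ∫ x in (0 : ℝ)..(σ s).2, F x)
      (F (σ s).2 * (H (σ s)).2) s := by
    have := HasDerivAt.comp s h3 h2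
    exact this
  exact h1.sub h4

private theorem drift_aux3 {H : ℝ × ℝ → ℝ × ℝ} {σ : ℝ → ℝ × ℝ} {T : ℝ} {k : ℤ}
    (hσ : CylSol H σ T k) {F : ℝ → ℝ} (hF : Continuous F)
    (hper : ∀ θ, F (θ + 2 * Real.pi) = F θ) :
    (σ T).1 - ∫ x in (0 : ℝ)..(σ T).2, F x =
      ((σ 0).1 - ∫ x in (0 : ℝ)..(σ 0).2, F x) -
        (k : ℝ) * ∫ x in (0 : ℝ)..(2 * Real.pi), F x := by
  have h := hσ.2.2.1 0
  rw [zero_add] at h
  have e1 : (σ T).1 = (σ 0).1 := by rw [h]; simp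
  have e2 : (σ T).2 = (σ 0).2 + 2 * Real.pi * (k : ℝ) := by rw [h]; simp
  rw [e1, e2, drift_aux1 hF hper]
  ring

/-- Proof. `g θ = ∫ x in 0..θ, F x` has the derivative `F`, and `g (θ + 2πk) = g θ + k ∫_0^{2π} F`
(`Function.Periodic.intervalIntegral_add_eq`, `intervalIntegral_add_zsmul_eq`). The function
`u s = (σ s).1 - g ((σ s).2)` has the derivative `(H (σ s)).1 - F (σ s).2 * (H (σ s)).2 ≥ 0`, so
`u 0 ≤ u T = u 0 - k ∫_0^{2π} F`. -/
theorem drift_le {H : ℝ × ℝ → ℝ × ℝ} {σ : ℝ → ℝ × ℝ} {T : ℝ} {k : ℤ} (hσ : CylSol H σ T k)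
    (hk : 0 < k) {F : ℝ → ℝ} (hF : Continuous F) (hper : ∀ θ, F (θ + 2 * Real.pi) = F θ)
    (h : ∀ s, F (σ s).2 * (H (σ s)).2 ≤ (H (σ s)).1) :
    ∫ θ in (0 : ℝ)..(2 * Real.pi), F θ ≤ 0 := by
  have hm : Monotone (fun s => (σ s).1 - ∫ x in (0 : ℝ)..(σ s).2, F x) :=
    monotone_of_hasDerivAt_nonneg (fun s => drift_aux2 hσ hF s) fun s => by
      have := h s
      simp only [Pi.zero_apply]
      linarith
  have h1 := hm hσ.1.le
  simp only at h1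
  rw [drift_aux3 hσ hF hper] at h1
  have hk' : (0 : ℝ) < (k : ℝ) := by exact_mod_cast hk
  by_contra hc
  push Not at hc
  have := mul_pos hk' hc
  linarith

/-- the same with the opposite inequality -/
theorem drift_ge {H : ℝ × ℝ → ℝ × ℝ} {σ : ℝ → ℝ × ℝ} {T : ℝ} {k : ℤ} (hσ : CylSol H σ T k)
    (hk : 0 < k) {F : ℝ → ℝ} (hF : Continuous F) (hper : ∀ θ, F (θ + 2 * Real.pi) = F θ)
    (h : ∀ s, (H (σ s)).1 ≤ F (σ s).2 * (H (σ s)).2) :
    0 ≤ ∫ θ in (0 : ℝ)..(2 * Real.pi), F θ := by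
  have hm : Antitone (fun s => (σ s).1 - ∫ x in (0 : ℝ)..(σ s).2, F x) :=
    antitone_of_hasDerivAt_nonpos (fun s => drift_aux2 hσ hF s) fun s => by
      have := h s
      simp only [Pi.zero_apply]
      linarith
  have h1 := hm hσ.1.le
  simp only at h1
  rw [drift_aux3 hσ hF hper] at h1
  have hk' : (0 : ℝ) < (k : ℝ) := by exact_mod_cast hk
  by_contra hc
  push Not at hc
  have := mul_pos hk' (neg_pos.mpr hc)
  linarith

end Pool.Agent.Lib.MP_95e7ec_an
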