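import Mathlib
import Pool.Agent.Lib.MP_95e7ec_an.Rb.Basic

/-!
# Rw, PinchPt: inequalities at one point
-/

set_option autoImplicit false

open Set Filter Topology MeasureTheory
open scoped ContDiff ENNReal

namespace Pool.Agent.Lib.MP_95e7ec_an

/-- Proof. Put `r = nm (x,y)`, `w = nm (X,Y) ≥ κ ν`, `η = δ/κ ≤ t³/200`. The error vector
`(e,f) = (x,y) - E (X,Y)` has `nm (e,f) ≤ δ ν E ≤ η w E`, so `r ≥ (1 - η) w E > 0`,
`y ≥ sin t r > 0`, `E Y = y - f ≥ (sin t (1 - η) - η) w E ≥ t/2 w E` (`sin t ≥ 0.9 t`), and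
`x Y - y X = e Y - f X`, `|e Y - f X| ≤ nm (e,f) w ≤ η E w²`, hence
`|x/y - X/Y| = |x Y - y X| / (y Y) ≤ η E w² / (0.89 t E w · 0.5 t w) ≤ t/50`
(sharper: `E Y ≥ 0.89 t w E`). -/
theorem pinch_pt {x y X Y E ν δ κ t : ℝ} (hE : 0 < E) (hν : 0 < ν) (hδ : 0 ≤ δ) (hκ : 0 < κ)
    (ht : 0 < t) (ht1 : t ≤ 1 / 20) (hδκ : 200 * δ ≤ κ * t ^ 3)
    (hnear : nm ((x, y) - E • (X, Y)) ≤ δ * ν * E) (hw : κ * ν ≤ nm (X, Y))
    (hy : Real.sin t * nm (x, y) ≤ y) :
    0 < y ∧ κ * ν * t / 2 ≤ Y ∧ |x / y - X / Y| ≤ t / 50 := by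
  obtain ⟨w, hwd⟩ : ∃ w, w = nm (X, Y) := ⟨_, rfl⟩
  obtain ⟨r, hrd⟩ : ∃ r, r = nm (x, y) := ⟨_, rfl⟩
  rw [← hwd] at hw
  rw [← hrd] at hy
  have hκν : 0 < κ * ν := mul_pos hκ hν
  have hw0 : 0 < w := lt_of_lt_of_le hκν hw
  obtain ⟨η, hη⟩ : ∃ η, η = δ / κ := ⟨_, rfl⟩
  have hη0 : 0 ≤ η := by rw [hη]; positivity
  have hδη : δ = η * κ := by rw [hη]; field_simp
  have hη1 : 200 * η ≤ t ^ 3 := by
    rw [hδη] at hδκ
    have h : (200 * η) * κ ≤ t ^ 3 * κ := by linarith
    exact le_of_mul_le_mul_right h hκ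
  have hP : 0 < w * E := mul_pos hw0 hE
  have hn : nm ((x, y) - E • (X, Y)) ≤ η * (w * E) := by
    refine hnear.trans ?_
    have h1 : δ * ν ≤ η * w := by
      rw [hδη, mul_assoc]
      exact mul_le_mul_of_nonneg_left hw hη0
    calc δ * ν * E ≤ η * w * E := mul_le_mul_of_nonneg_right h1 hE.le
      _ = η * (w * E) := by ring
  have hef : (x, y) - E • (X, Y) = ((x - E * X, y - E * Y) : ℝ × ℝ) := rfl
  have hr : w * E ≤ r + η * (w * E) := by
    have h1 := rb_nm_sub_le (x, y) ((x, y) - E • (X, Y))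
    rw [sub_sub_cancel, rb_nm_smul, abs_of_pos hE, ← hrd, ← hwd] at h1
    linarith
  have hf : |y - E * Y| ≤ η * (w * E) := by
    refine le_trans ?_ hn
    rw [hef, nm]
    exact Real.abs_le_sqrt (by nlinarith [sq_nonneg (x - E * X)])
  have hdet : |(x - E * X) * Y - (y - E * Y) * X| ≤ η * (w * E) * w := by
    have h1 := rb_det2_le ((x, y) - E • (X, Y)) (X, Y)
    rw [hef] at h1
    rw [hef] at hn
    have h2 : det2 ((x - E * X, y - E * Y) : ℝ × ℝ) (X, Y) =
        (x - E * X) * Y - (y - E * Y) * X := by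
      simp only [det2]
    rw [h2, ← hwd] at h1
    exact h1.trans (mul_le_mul_of_nonneg_right hn hw0.le)
  have ht2 : t ^ 2 ≤ 1 / 400 := by nlinarith
  have ht3 : t ^ 3 ≤ t / 400 := by
    have : t ^ 3 = t * t ^ 2 := by ring
    rw [this]
    nlinarith
  have hsin : 99 / 100 * t ≤ Real.sin t := by
    have h1 := Real.sin_gt_sub_cube ht
    linarith
  have hη2 : η ≤ t / 80000 := by linarith
  have hη3 : η ≤ 1 / 100 := by linarith
  have hr2 : 99 / 100 * (w * E) ≤ r := by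
    have h1 : η * (w * E) ≤ 1 / 100 * (w * E) := mul_le_mul_of_nonneg_right hη3 hP.le
    linarith
  have hy2 : 98 / 100 * t * (w * E) ≤ y := by
    have h1 : 99 / 100 * t * (99 / 100 * (w * E)) ≤ Real.sin t * r := by
      apply mul_le_mul hsin hr2 (by positivity)
      exact le_trans (by positivity) hsin
    have h2 : 0 < t * (w * E) := mul_pos ht hP
    have h3 : 99 / 100 * t * (99 / 100 * (w * E)) = 9801 / 10000 * (t * (w * E)) := by ring
    have h4 : 98 / 100 * t * (w * E) = 98 / 100 * (t * (w * E)) := by ring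
    rw [h3] at h1
    rw [h4]
    linarith
  have htP : 0 < t * (w * E) := mul_pos ht hP
  have hy0 : 0 < y := lt_of_lt_of_le (by positivity) hy2
  have hEY : 97 / 100 * t * (w * E) ≤ E * Y := by
    have h1 := (abs_le.1 hf).2
    have h2 : η * (w * E) ≤ t / 80000 * (w * E) := mul_le_mul_of_nonneg_right hη2 hP.le
    have h3 : t / 80000 * (w * E) = 1 / 80000 * (t * (w * E)) := by ring
    have h4 : 98 / 100 * t * (w * E) = 98 / 100 * (t * (w * E)) := by ring
    have h5 : 97 / 100 * t * (w * E) = 97 / 100 * (t * (w * E)) := by ring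
    rw [h3] at h2
    rw [h4] at hy2
    rw [h5]
    linarith
  have hY : 97 / 100 * t * w ≤ Y := by
    have h1 : 97 / 100 * t * w * E ≤ Y * E := by
      calc 97 / 100 * t * w * E = 97 / 100 * t * (w * E) := by ring
        _ ≤ E * Y := hEY
        _ = Y * E := mul_comm _ _
    exact le_of_mul_le_mul_right h1 hE
  have htw : 0 < t * w := mul_pos ht hw0
  have hY0 : 0 < Y := lt_of_lt_of_le (by positivity) hY
  refine ⟨hy0, ?_, ?_⟩
  · have h1 : κ * ν * t ≤ w * t := mul_le_mul_of_nonneg_right hw ht.le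
    have h2 : 97 / 100 * t * w = 97 / 100 * (t * w) := by ring
    rw [h2] at hY
    rw [mul_comm w t] at h1
    linarith
  · rw [div_sub_div _ _ hy0.ne' hY0.ne', abs_div, abs_of_pos (mul_pos hy0 hY0),
      div_le_iff₀ (mul_pos hy0 hY0)]
    have e : x * Y - y * X = (x - E * X) * Y - (y - E * Y) * X := by ring
    rw [e]
    refine hdet.trans ?_
    have h1 : 98 / 100 * t * (w * E) * (97 / 100 * t * w) ≤ y * Y :=
      mul_le_mul hy2 hY (by positivity) hy0.le
    have h2 : η * (w * E) * w ≤ t ^ 3 / 200 * ((w * E) * w) := by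
      have h3 : η ≤ t ^ 3 / 200 := by linarith
      calc η * (w * E) * w = η * ((w * E) * w) := by ring
        _ ≤ t ^ 3 / 200 * ((w * E) * w) := mul_le_mul_of_nonneg_right h3 (by positivity)
    have h4 : t / 50 * (98 / 100 * t * (w * E) * (97 / 100 * t * w)) ≤ t / 50 * (y * Y) :=
      mul_le_mul_of_nonneg_left h1 (by positivity)
    have h5 : 0 < t ^ 3 * ((w * E) * w) := by positivity
    have h6 : t / 50 * (98 / 100 * t * (w * E) * (97 / 100 * t * w)) =
        9506 / 500000 * (t ^ 3 * ((w * E) * w)) := by ring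
    have h7 : t ^ 3 / 200 * ((w * E) * w) = 1 / 200 * (t ^ 3 * ((w * E) * w)) := by ring
    rw [h6] at h4
    rw [h7] at h2
    linarith

/-- Proof: `cos b (y cos b - x sin b) + sin b (x cos b + y sin b) = y ≥ 0`, and the same with `-x`. -/
theorem pinch_ineq1 {x y b : ℝ} (hy : 0 ≤ y) (hs : 0 < Real.sin b) :
    -(Real.cos b / Real.sin b) * (y * Real.cos b - x * Real.sin b) ≤
        x * Real.cos b + y * Real.sin b ∧
      x * Real.cos b - y * Real.sin b ≤
        (Real.cos b / Real.sin b) * (y * Real.cos b + x * Real.sin b) := by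
  have hc := Real.sin_sq_add_cos_sq b
  have h0 : 0 ≤ y / Real.sin b := div_nonneg hy hs.le
  constructor
  · have h : x * Real.cos b + y * Real.sin b -
        -(Real.cos b / Real.sin b) * (y * Real.cos b - x * Real.sin b) = y / Real.sin b := by
      field_simp
      linear_combination y * hc
    linarith
  · have h : (Real.cos b / Real.sin b) * (y * Real.cos b + x * Real.sin b) -
        (x * Real.cos b - y * Real.sin b) = y / Real.sin b := by
      field_simp
      linear_combination y * hc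
    linarith

private theorem pinchpt_aux {x y h b : ℝ} (hy : 0 < y) (hs : 0 < Real.sin b)
    (hh : |x / y - h| ≤ Real.sin b / 8) :
    (h + Real.sin b / 2) * (y * Real.cos b - x * Real.sin b) ≤
        x * Real.cos b + y * Real.sin b := by
  have hc := Real.sin_sq_add_cos_sq b
  obtain ⟨ξ, hξ⟩ : ∃ ξ, ξ = x / y := ⟨_, rfl⟩
  have hx : x = ξ * y := by rw [hξ]; field_simp
  rw [← hξ] at hh
  rw [hx]
  obtain ⟨s, hsd⟩ : ∃ s, s = Real.sin b := ⟨_, rfl⟩
  obtain ⟨c, hcd⟩ : ∃ c, c = Real.cos b := ⟨_, rfl⟩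
  rw [← hsd] at hs hh hc ⊢
  rw [← hcd] at hc ⊢
  obtain ⟨q, hq⟩ : ∃ q, q = Real.sqrt (1 + ξ ^ 2) := ⟨_, rfl⟩
  have hq2 : q ^ 2 = 1 + ξ ^ 2 := by rw [hq]; exact Real.sq_sqrt (by positivity)
  have hq0 : 0 ≤ q := by rw [hq]; exact Real.sqrt_nonneg _
  have hq1 : 1 ≤ q := by nlinarith [sq_nonneg ξ]
  have hd : |c - ξ * s| ≤ q := by
    apply abs_le_of_sq_le_sq _ hq0
    rw [hq2]
    nlinarith [sq_nonneg (s + ξ * c)]
  have hg : |ξ - h - s / 2| ≤ 5 / 8 * s := by
    have h1 := abs_le.1 hh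
    rw [abs_le]
    constructor <;> linarith [h1.1, h1.2]
  have hprod : -(5 / 8 * s * q) ≤ (ξ - h - s / 2) * (c - ξ * s) := by
    have h1 : |(ξ - h - s / 2) * (c - ξ * s)| ≤ 5 / 8 * s * q := by
      rw [abs_mul]
      exact mul_le_mul hg hd (abs_nonneg _) (by positivity)
    exact (abs_le.1 h1).1
  have hqq : s * q ≤ s * q ^ 2 := by
    have : q ≤ q ^ 2 := by nlinarith
    exact mul_le_mul_of_nonneg_left this hs.le
  have hkey : (h + s / 2) * (c - ξ * s) ≤ ξ * c + s := by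
    have e : ξ * c + s - (h + s / 2) * (c - ξ * s) = s * q ^ 2 + (ξ - h - s / 2) * (c - ξ * s) := by
      rw [hq2]; ring
    have hsq : 0 ≤ s * q := by positivity
    nlinarith
  calc (h + s / 2) * (y * c - ξ * y * s) = y * ((h + s / 2) * (c - ξ * s)) := by ring
    _ ≤ y * (ξ * c + s) := mul_le_mul_of_nonneg_left hkey hy.le
    _ = ξ * y * c + y * s := by ring

/-- Proof. Let `s = sin b`, `θ' = y cos b - x s`, `r² = x²+y²`; `|θ'| ≤ r` (Cauchy), `r²/y ≥ r`.
`x cos b + y s - (h + s/2) θ' = s r²/y + (x/y - h - s/2) θ' ≥ s r - (5/8) s r ≥ 0`. The second one: replace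
`x` by `-x` and `h` by `-h`. -/
theorem pinch_ineq2 {x y h b : ℝ} (hy : 0 < y) (hs : 0 < Real.sin b)
    (hh : |x / y - h| ≤ Real.sin b / 8) :
    (h + Real.sin b / 2) * (y * Real.cos b - x * Real.sin b) ≤
        x * Real.cos b + y * Real.sin b ∧
      x * Real.cos b - y * Real.sin b ≤
        (h - Real.sin b / 2) * (y * Real.cos b + x * Real.sin b) := by
  refine ⟨pinchpt_aux hy hs hh, ?_⟩
  have hh' : |(-x) / y - (-h)| ≤ Real.sin b / 8 := by
    have e : (-x) / y - (-h) = -(x / y - h) := by ring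
    rw [e, abs_neg]
    exact hh
  have h1 := pinchpt_aux hy hs hh'
  have e1 : (-h + Real.sin b / 2) * (y * Real.cos b - -x * Real.sin b) =
      -((h - Real.sin b / 2) * (y * Real.cos b + x * Real.sin b)) := by ring
  rw [e1] at h1
  linarith

end Pool.Agent.Lib.MP_95e7ec_an
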