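import Mathlib
import Pool.Agent.Lib.MP_95e7ec_an.Rq.Arc

/-!
# Rw, TwoArc: two angles with a closed orbit in the same zone
-/

set_option autoImplicit false

open Set Filter Topology MeasureTheory
open scoped ContDiff ENNReal

namespace Pool.Agent.Lib.MP_95e7ec_an

/-- the trigonometry of `two_arc`, the half plane `x ≥ 0` -/
private theorem rwta_half {x y r b t : ℝ} (ht : 0 < t) (hr : 0 < r) (hxy : x ^ 2 + y ^ 2 = r ^ 2)
    (hx : 0 ≤ x) (hb1 : 3 * t ≤ b) (hb2 : b ≤ Real.pi / 2 - 3 * t)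
    (h : -(Real.sin (3 * t) * r) < -(Real.sin b * x) + Real.cos b * y) :
    Real.sin (b - 3 * t) * r ≤ y := by
  by_contra hcon
  push Not at hcon
  have hpi := Real.pi_pos
  have hyr : y / r < Real.sin (b - 3 * t) := by
    rw [div_lt_iff₀ hr]
    exact hcon
  have habs : -r ≤ y ∧ y ≤ r := abs_le_of_sq_le_sq' (by nlinarith [sq_nonneg x]) hr.le
  have h1 : -1 ≤ y / r := by
    rw [le_div_iff₀ hr]
    linarith [habs.1]
  have h2 : y / r ≤ 1 := by
    rw [div_le_iff₀ hr]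
    linarith [habs.2]
  obtain ⟨u, hu⟩ : ∃ u, u = Real.arcsin (y / r) := ⟨_, rfl⟩
  have hsu : Real.sin u = y / r := by rw [hu, Real.sin_arcsin h1 h2]
  have hcu : Real.cos u = x / r := by
    rw [hu, Real.cos_arcsin]
    have h3 : 1 - (y / r) ^ 2 = (x / r) ^ 2 := by
      rw [div_pow, div_pow, eq_div_iff (pow_pos hr 2).ne', sub_mul,
        div_mul_cancel₀ _ (pow_pos hr 2).ne']
      linarith
    rw [h3, Real.sqrt_sq (div_nonneg hx hr.le)]
  have hul : -(Real.pi / 2) ≤ u := by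
    rw [hu]
    exact Real.neg_pi_div_two_le_arcsin _
  have hur : u ≤ b - 3 * t := by
    rw [hu, Real.arcsin_le_iff_le_sin' ⟨by linarith, by linarith⟩]
    exact hyr.le
  have hsin : Real.sin (3 * t) ≤ Real.sin (b - u) := by
    rcases le_total (b - u) (Real.pi / 2) with h3 | h3
    · exact Real.sin_le_sin_of_le_of_le_pi_div_two (by linarith) h3 (by linarith)
    · rw [← Real.sin_pi_sub (b - u)]
      exact Real.sin_le_sin_of_le_of_le_pi_div_two (by linarith) (by linarith) (by linarith)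
  rw [Real.sin_sub, hsu, hcu] at hsin
  have h4 : Real.sin (3 * t) * r ≤ Real.sin b * x - Real.cos b * y := by
    have h5 := mul_le_mul_of_nonneg_right hsin hr.le
    have h6 : (Real.sin b * (x / r) - Real.cos b * (y / r)) * r =
        Real.sin b * x - Real.cos b * y := by
      field_simp
    rwa [h6] at h5
  linarith

/-- the trigonometry of `two_arc` -/
private theorem rwta_trig {x y r b t : ℝ} (ht : 0 < t) (hr : 0 < r) (hxy : x ^ 2 + y ^ 2 = r ^ 2)
    (hb1 : 3 * t ≤ b) (hb2 : b ≤ Real.pi / 2 - 3 * t)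
    (h : -(Real.sin (3 * t) * r) < -(Real.sin b * x) + Real.cos b * y)
    (h' : -(Real.sin (3 * t) * r) < Real.sin b * x + Real.cos b * y) :
    Real.sin (b - 3 * t) * r ≤ y := by
  rcases le_total 0 x with hx | hx
  · exact rwta_half ht hr hxy hx hb1 hb2 h
  · refine rwta_half (x := -x) ht hr (by linarith [neg_sq x]) (by linarith) hb1 hb2 ?_
    rw [mul_neg, neg_neg]
    exact h'

/-- the second component at the angle `c + d` in the coordinates turned by `c` -/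
private theorem rwta_snd (Φ : ℝ × ℝ → ℝ × ℝ) (c d : ℝ) (p : ℝ × ℝ) :
    (turn (c + d) Φ p).2 = Real.sin d * (turn c Φ p).1 + Real.cos d * (turn c Φ p).2 := by
  unfold turn
  simp only
  rw [Real.sin_add, Real.cos_add]
  ring

/-- Proof. `zone_arc` for `a` and for `a'` at the point `p` (`r = nm (Φ p) > 0`, `hZ.ne`). Put
`b = (a' - a)/2 ∈ [3t, π/2 - 3t]`, `(x,y) = turn ((a+a')/2) Φ p`, `r² = x² + y²`. Then
`(turn a Φ p).2 = y cos b - x sin b` and `(turn a' Φ p).2 = y cos b + x sin b`, both `> - r sin (3t)`.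
Suppose `y < r sin (b - 3t)`. If `x ≥ 0`, write `(x,y) = r (cos u, sin u)` with `u = arcsin (y/r)`,
`-π/2 ≤ u ≤ b - 3t`; then `u - b ∈ [-π + 3t, -3t]`, so `sin (u - b) ≤ - sin (3t)` and
`(turn a Φ p).2 = r sin (u - b)`: contradiction. If `x ≤ 0` the same with `(-x, y)` and `a'`. -/
theorem two_arc {Φ : ℝ × ℝ → ℝ × ℝ} (hΦ : ContDiff ℝ 2 Φ)
    (hper : ∀ p : ℝ × ℝ, Φ (p + (0, 2 * Real.pi)) = Φ p) {m t : ℝ} (ht : 0 < t)
    (ht1 : t ≤ 1 / 20) (hm : m ≤ Real.tan (2 * t)) {G I : Set ℝ}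
    (hG : ∀ x : ℝ, ∃ c ∈ G, x ≤ c ∧ c ≤ x + t) (hZ : Zone Φ m G I) {a a' : ℝ}
    {C C' : Set (ℝ × ℝ)} (hC : PosOrb Φ I a C) (hC' : PosOrb Φ I a' C')
    (h1 : a + 6 * t ≤ a') (h2 : a' ≤ a + Real.pi - 6 * t) {p : ℝ × ℝ} (hp : p.1 ∈ I) :
    Real.sin ((a' - a) / 2 - 3 * t) * nm (Φ p) ≤ (turn ((a + a') / 2) Φ p).2 := by
  have hr : 0 < nm (Φ p) := nm_pos (hZ.ne p hp)
  have hz := zone_arc hΦ hper ht ht1 hm hG hZ hC hp
  have hz' := zone_arc hΦ hper ht ht1 hm hG hZ hC' hp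
  have e1 : a = (a + a') / 2 + -((a' - a) / 2) := by ring
  have e2 : a' = (a + a') / 2 + (a' - a) / 2 := by ring
  have f1 : (turn a Φ p).2 = -(Real.sin ((a' - a) / 2) * (turn ((a + a') / 2) Φ p).1) +
      Real.cos ((a' - a) / 2) * (turn ((a + a') / 2) Φ p).2 := by
    have h := rwta_snd Φ ((a + a') / 2) (-((a' - a) / 2)) p
    rw [← e1, Real.sin_neg, Real.cos_neg] at h
    rw [h]
    ring
  have f2 : (turn a' Φ p).2 = Real.sin ((a' - a) / 2) * (turn ((a + a') / 2) Φ p).1 +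
      Real.cos ((a' - a) / 2) * (turn ((a + a') / 2) Φ p).2 := by
    have h := rwta_snd Φ ((a + a') / 2) ((a' - a) / 2) p
    rw [← e2] at h
    exact h
  rw [f1] at hz
  rw [f2] at hz'
  have hr2 : (turn ((a + a') / 2) Φ p).1 ^ 2 + (turn ((a + a') / 2) Φ p).2 ^ 2 = nm (Φ p) ^ 2 := by
    rw [← nm_turn ((a + a') / 2) Φ p, nm_sq]
  exact rwta_trig ht hr hr2 (by linarith) (by linarith) hz hz'

end Pool.Agent.Lib.MP_95e7ec_an
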