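import Mathlib
import Pool.Agent.Lib.MP_95e7ec_an.Rw.Defs
import Pool.Agent.Lib.MP_95e7ec_an.Rw.TwoArc
import Pool.Agent.Lib.MP_95e7ec_an.Rw.Drift
import Pool.Agent.Lib.MP_95e7ec_an.Rw.PinchPt

/-!
# Rw, Pinch: the angles with a closed orbit in a dominated zone are close
-/

set_option autoImplicit false

open Set Filter Topology MeasureTheory
open scoped ContDiff ENNReal

namespace Pool.Agent.Lib.MP_95e7ec_an

/-- the cut off function -/
private noncomputable def Pinch_chi (W : ℝ → ℝ × ℝ) (q : ℝ) (θ : ℝ) : ℝ :=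
  max 0 (min 1 (nm (W θ) / q - 1))

private theorem Pinch_chi_cont {W : ℝ → ℝ × ℝ} (hW : Continuous W) (q : ℝ) :
    Continuous (Pinch_chi W q) := by
  unfold Pinch_chi
  exact continuous_const.max (continuous_const.min
    (((continuous_nm.comp hW).div_const q).sub continuous_const))

private theorem Pinch_chi_nonneg (W : ℝ → ℝ × ℝ) (q θ : ℝ) : 0 ≤ Pinch_chi W q θ :=
  le_max_left _ _

private theorem Pinch_chi_le_one (W : ℝ → ℝ × ℝ) (q θ : ℝ) : Pinch_chi W q θ ≤ 1 :=
  max_le zero_le_one (min_le_left _ _)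

private theorem Pinch_chi_one {W : ℝ → ℝ × ℝ} {q θ : ℝ} (hq : 0 < q) (h : 2 * q ≤ nm (W θ)) :
    Pinch_chi W q θ = 1 := by
  have h1 : 1 ≤ nm (W θ) / q - 1 := by
    rw [le_sub_iff_add_le, le_div_iff₀ hq]
    linarith
  rw [Pinch_chi, min_eq_left h1, max_eq_right zero_le_one]

private theorem Pinch_chi_pos {W : ℝ → ℝ × ℝ} {q θ : ℝ} (hq : 0 < q)
    (h : Pinch_chi W q θ ≠ 0) : q ≤ nm (W θ) := by
  by_contra hc
  push Not at hc
  apply h
  have h1 : nm (W θ) / q - 1 ≤ 0 := by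
    rw [sub_nonpos, div_le_one hq]
    exact hc.le
  rw [Pinch_chi, max_eq_left ((min_le_right _ _).trans h1)]

/-- the integral of `1 - χ` is small -/
private theorem Pinch_int {W : ℝ → ℝ × ℝ} (hW : Continuous W) {q t : ℝ} (hq : 0 < q)
    (hvol : volume {θ : ℝ | θ ∈ Set.Ioc 0 (2 * Real.pi) ∧ nm (W θ) < 2 * q} ≤
      ENNReal.ofReal (t ^ 2)) :
    ∫ θ in (0 : ℝ)..(2 * Real.pi), (1 - Pinch_chi W q θ) ≤ t ^ 2 := by
  have hpi : (0 : ℝ) ≤ 2 * Real.pi := by positivity
  set S : Set ℝ := {θ : ℝ | nm (W θ) < 2 * q} with hS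
  have hSm : MeasurableSet S :=
    (isOpen_lt (continuous_nm.comp hW) continuous_const).measurableSet
  rw [intervalIntegral.integral_of_le hpi]
  have h1 : ∫ θ in Set.Ioc (0 : ℝ) (2 * Real.pi), (1 - Pinch_chi W q θ) ≤
      ∫ θ in Set.Ioc (0 : ℝ) (2 * Real.pi), S.indicator (fun _ => (1 : ℝ)) θ := by
    apply MeasureTheory.setIntegral_mono_on
    · exact ((continuous_const.sub (Pinch_chi_cont hW q)).integrableOn_Ioc)
    · apply MeasureTheory.Integrable.indicator _ hSm
      exact (continuous_const (y := (1 : ℝ))).integrableOn_Ioc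
    · exact measurableSet_Ioc
    · intro θ _
      by_cases hθ : θ ∈ S
      · rw [Set.indicator_of_mem hθ]
        have := Pinch_chi_nonneg W q θ
        linarith
      · rw [Set.indicator_of_notMem hθ]
        rw [hS, Set.mem_ofPred_eq, not_lt] at hθ
        rw [Pinch_chi_one hq hθ, sub_self]
  refine h1.trans ?_
  rw [MeasureTheory.setIntegral_indicator hSm, MeasureTheory.setIntegral_const, smul_eq_mul,
    mul_one, MeasureTheory.measureReal_def]
  have h2 : Set.Ioc (0 : ℝ) (2 * Real.pi) ∩ S =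
      {θ : ℝ | θ ∈ Set.Ioc 0 (2 * Real.pi) ∧ nm (W θ) < 2 * q} := rfl
  rw [h2]
  exact ENNReal.toReal_le_of_le_ofReal (sq_nonneg t) hvol

/-- Proof. Let `b = (a'-a)/2 ∈ [4t, π/2 - 4t]`, `s = sin b ≥ sin (4t) ≥ 2t`, `am = (a+a')/2`,
`(X θ, Y θ) = turn am W θ` (i.e. `X = cos am W.1 - sin am W.2`, `Y = sin am W.1 + cos am W.2`),
`χ θ = max 0 (min 1 (nm (W θ)/(κ ν) - 1))` (continuous, `0` where `nm W ≤ κν`, `1` where
`nm W ≥ 2κν`), `h θ = X θ / max (Y θ) (κ ν t/2)` (continuous), and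
`F = χ (h + s/2) + (1-χ) (-cos b/s)`, `F' = χ (h - s/2) + (1-χ) (cos b/s)`: continuous, `2π`-periodic.
At a point `p` of the zone with `(x,y) = turn am Φ p`: `y ≥ sin (b - 3t) nm (Φ p) ≥ sin t nm (Φ p) > 0`
(`two_arc`); `turn a Φ p = (x cos b + y s, y cos b - x s)`, `turn a' Φ p = (x cos b - y s, y cos b + x s)`.
If `χ > 0` at `p.2` then `nm W > κν` and `pinch_pt` (with `E = e^{k p.1}`; `turn am` preserves `nm`) gives
`h = X/Y`, `|x/y - h| ≤ t/50 ≤ s/8`, so `pinch_ineq2` applies; `pinch_ineq1` always applies. By convex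
combination `F (p.2) * (turn a Φ p).2 ≤ (turn a Φ p).1` and
`(turn a' Φ p).1 ≤ F' (p.2) * (turn a' Φ p).2`. So `∫ F ≤ 0 ≤ ∫ F'` (`drift_le`, `drift_ge`), and
`0 ≤ ∫ (F' - F) = -s ∫ χ + 2 (cos b/s) ∫ (1-χ)`. As `1 - χ ≤ 1` is supported on the set
`nm W < 2κν` of measure `≤ t²`, `∫ (1-χ) ≤ t²`, `∫ χ ≥ 2π - t² ≥ 6`: `6 s² ≤ 2 t²`, but `s ≥ 2t`. -/
theorem pinch {Φ : ℝ × ℝ → ℝ × ℝ} (hΦ : ContDiff ℝ 2 Φ)
    (hper : ∀ p : ℝ × ℝ, Φ (p + (0, 2 * Real.pi)) = Φ p) {m t : ℝ} (ht : 0 < t)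
    (ht1 : t ≤ 1 / 20) (hm : m ≤ Real.tan (2 * t)) {G I : Set ℝ}
    (hG : ∀ x : ℝ, ∃ c ∈ G, x ≤ c ∧ c ≤ x + t) (hZ : Zone Φ m G I) (hD : Dominated Φ t I)
    {a a' : ℝ} {C C' : Set (ℝ × ℝ)} (hC : PosOrb Φ I a C) (hC' : PosOrb Φ I a' C')
    (h1 : a + 8 * t ≤ a') (h2 : a' ≤ a + Real.pi - 8 * t) : False := by
  have hpi3 := Real.pi_gt_three
  have hpi4 := Real.pi_le_four
  obtain ⟨k, W, ν, δ, κ, hW, hWper, hν, hδ, hκ, hδκ, hvol, hdom⟩ := hD
  obtain ⟨b, hb⟩ : ∃ b, b = (a' - a) / 2 := ⟨_, rfl⟩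
  obtain ⟨am, ham⟩ : ∃ am, am = (a + a') / 2 := ⟨_, rfl⟩
  have hab : a = am - b := by rw [ham, hb]; ring
  have hab' : a' = am + b := by rw [ham, hb]; ring
  have hb1 : 4 * t ≤ b := by rw [hb]; linarith
  have hb2 : b ≤ Real.pi / 2 - 4 * t := by rw [hb]; linarith
  have hs2 : 2 * t ≤ Real.sin b := by
    have h := Real.mul_le_sin (x := b) (by linarith) (by linarith)
    refine le_trans ?_ h
    have h3 : 2 * t ≤ 2 / Real.pi * (4 * t) := by
      rw [div_mul_eq_mul_div, le_div_iff₀ Real.pi_pos]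
      nlinarith
    refine h3.trans ?_
    exact mul_le_mul_of_nonneg_left hb1 (by positivity)
  have hs : 0 < Real.sin b := by linarith
  have hcos0 : 0 ≤ Real.cos b :=
    Real.cos_nonneg_of_mem_Icc ⟨by linarith, by linarith⟩
  have hcos1 : Real.cos b ≤ 1 := Real.cos_le_one b
  have hq : 0 < κ * ν := mul_pos hκ hν
  have hq2 : 0 < κ * ν * t / 2 := by positivity
  -- the functions
  set X : ℝ → ℝ := fun θ => Real.cos am * (W θ).1 - Real.sin am * (W θ).2 with hX
  set Y : ℝ → ℝ := fun θ => Real.sin am * (W θ).1 + Real.cos am * (W θ).2 with hY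
  set h : ℝ → ℝ := fun θ => X θ / max (Y θ) (κ * ν * t / 2) with hh
  have hXc : Continuous X :=
    (continuous_const.mul (continuous_fst.comp hW)).sub
      (continuous_const.mul (continuous_snd.comp hW))
  have hYc : Continuous Y :=
    (continuous_const.mul (continuous_fst.comp hW)).add
      (continuous_const.mul (continuous_snd.comp hW))
  have hhc : Continuous h :=
    hXc.div (hYc.max continuous_const) fun θ => (lt_max_of_lt_right hq2).ne'
  set χ : ℝ → ℝ := Pinch_chi W (κ * ν) with hχ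
  have hχc : Continuous χ := Pinch_chi_cont hW _
  have hχ0 : ∀ θ, 0 ≤ χ θ := fun θ => Pinch_chi_nonneg W _ θ
  have hχ1 : ∀ θ, χ θ ≤ 1 := fun θ => Pinch_chi_le_one W _ θ
  have hχp : ∀ θ, χ (θ + 2 * Real.pi) = χ θ := by
    intro θ
    rw [hχ, Pinch_chi, Pinch_chi, hWper]
  have hhp : ∀ θ, h (θ + 2 * Real.pi) = h θ := by
    intro θ
    simp only [hh, hX, hY, hWper]
  set F : ℝ → ℝ := fun θ => χ θ * (h θ + Real.sin b / 2) +
    (1 - χ θ) * (-(Real.cos b / Real.sin b)) with hF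
  set F' : ℝ → ℝ := fun θ => χ θ * (h θ - Real.sin b / 2) +
    (1 - χ θ) * (Real.cos b / Real.sin b) with hF'
  have hFc : Continuous F :=
    (hχc.mul (hhc.add continuous_const)).add ((continuous_const.sub hχc).mul continuous_const)
  have hFc' : Continuous F' :=
    (hχc.mul (hhc.sub continuous_const)).add ((continuous_const.sub hχc).mul continuous_const)
  have hFp : ∀ θ, F (θ + 2 * Real.pi) = F θ := by
    intro θ
    simp only [hF, hχp, hhp]
  have hFp' : ∀ θ, F' (θ + 2 * Real.pi) = F' θ := by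
    intro θ
    simp only [hF', hχp, hhp]
  -- the inequality at a point
  have key : ∀ p : ℝ × ℝ, p.1 ∈ I →
      F p.2 * (turn a Φ p).2 ≤ (turn a Φ p).1 ∧ (turn a' Φ p).1 ≤ F' p.2 * (turn a' Φ p).2 := by
    intro p hp
    obtain ⟨x, hx⟩ : ∃ x, x = (turn am Φ p).1 := ⟨_, rfl⟩
    obtain ⟨y, hy⟩ : ∃ y, y = (turn am Φ p).2 := ⟨_, rfl⟩
    have hxy : turn am Φ p = (x, y) := by rw [hx, hy]
    have ta1 : (turn a Φ p).1 = x * Real.cos b + y * Real.sin b := by
      rw [hx, hy, hab]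
      unfold turn
      simp only [Real.cos_sub, Real.sin_sub]
      ring
    have ta2 : (turn a Φ p).2 = y * Real.cos b - x * Real.sin b := by
      rw [hx, hy, hab]
      unfold turn
      simp only [Real.cos_sub, Real.sin_sub]
      ring
    have tb1 : (turn a' Φ p).1 = x * Real.cos b - y * Real.sin b := by
      rw [hx, hy, hab']
      unfold turn
      simp only [Real.cos_add, Real.sin_add]
      ring
    have tb2 : (turn a' Φ p).2 = y * Real.cos b + x * Real.sin b := by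
      rw [hx, hy, hab']
      unfold turn
      simp only [Real.cos_add, Real.sin_add]
      ring
    have hne := hZ.ne p hp
    have hr : 0 < nm (Φ p) := nm_pos hne
    have hnxy : nm (x, y) = nm (Φ p) := by rw [← hxy, nm_turn]
    have hy1 : Real.sin t * nm (x, y) ≤ y := by
      have h3 := two_arc hΦ hper ht ht1 hm hG hZ hC hC' (by linarith) (by linarith) hp
      rw [← hb, ← ham, ← hy] at h3
      refine le_trans ?_ h3
      rw [hnxy]
      apply mul_le_mul_of_nonneg_right _ hr.le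
      exact Real.sin_le_sin_of_le_of_le_pi_div_two (by linarith) (by linarith) (by linarith)
    have hsint : 0 < Real.sin t := Real.sin_pos_of_pos_of_lt_pi ht (by linarith)
    have hy0 : 0 < y := lt_of_lt_of_le (by rw [hnxy]; positivity) hy1
    obtain ⟨i1, i2⟩ := pinch_ineq1 (x := x) (b := b) hy0.le hs
    have j : 0 ≤ χ p.2 := hχ0 _
    have j' : 0 ≤ 1 - χ p.2 := by linarith [hχ1 p.2]
    rw [ta1, ta2, tb1, tb2]
    by_cases hc : χ p.2 = 0
    · constructor
      · simp only [hF]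
        rw [hc]
        linarith
      · simp only [hF']
        rw [hc]
        linarith
    · have hw : κ * ν ≤ nm (W p.2) := Pinch_chi_pos hq hc
      have hXY : nm (X p.2, Y p.2) = nm (W p.2) :=
        nm_turn am (fun _ => W p.2) p
      have hnear : nm ((x, y) - Real.exp (k * p.1) • (X p.2, Y p.2)) ≤
          δ * ν * Real.exp (k * p.1) := by
        refine le_of_eq_of_le ?_ (hdom p hp)
        rw [← nm_turn am (fun p => Φ p - Real.exp (k * p.1) • W p.2) p, ← hxy]
        congr 1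
        unfold turn
        simp only [hX, hY, Prod.smul_mk, smul_eq_mul, Prod.mk_sub_mk, Prod.fst_sub, Prod.snd_sub,
          Prod.smul_fst, Prod.smul_snd]
        apply Prod.ext
        · simp only
          ring
        · simp only
          ring
      obtain ⟨_, k2, k3⟩ := pinch_pt (Real.exp_pos _) hν hδ hκ ht ht1 hδκ hnear
        (by rw [hXY]; exact hw) hy1
      have hhe : h p.2 = X p.2 / Y p.2 := by
        simp only [hh]
        rw [max_eq_left k2]
      have hh8 : |x / y - h p.2| ≤ Real.sin b / 8 := by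
        rw [hhe]
        refine k3.trans ?_
        linarith
      obtain ⟨l1, l2⟩ := pinch_ineq2 hy0 hs hh8
      constructor
      · simp only [hF]
        have e1 := mul_le_mul_of_nonneg_left l1 j
        have e2 := mul_le_mul_of_nonneg_left i1 j'
        linear_combination e1 + e2
      · simp only [hF']
        have e1 := mul_le_mul_of_nonneg_left l2 j
        have e2 := mul_le_mul_of_nonneg_left i2 j'
        linear_combination e1 + e2
  -- the two integrals
  obtain ⟨σ, T, n, hn, hσ, hσI, _⟩ := hC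
  obtain ⟨σ', T', n', hn', hσ', hσI', _⟩ := hC'
  have d1 := drift_le hσ hn hFc hFp (fun s => (key (σ s) (hσI s)).1)
  have d2 := drift_ge hσ' hn' hFc' hFp' (fun s => (key (σ' s) (hσI' s)).2)
  have hint := Pinch_int hW (t := t) hq (by
    have e : 2 * (κ * ν) = 2 * κ * ν := by ring
    rw [e]
    exact hvol)
  have e0 : ∫ θ in (0 : ℝ)..(2 * Real.pi), (F' θ - F θ) =
      -(Real.sin b) * (2 * Real.pi) + (Real.sin b + 2 * (Real.cos b / Real.sin b)) *
        ∫ θ in (0 : ℝ)..(2 * Real.pi), (1 - χ θ) := by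
    have e1 : ∀ θ, F' θ - F θ = -(Real.sin b) +
        (Real.sin b + 2 * (Real.cos b / Real.sin b)) * (1 - χ θ) := by
      intro θ
      simp only [hF, hF']
      ring
    simp only [e1]
    rw [intervalIntegral.integral_add, intervalIntegral.integral_const,
      intervalIntegral.integral_const_mul, smul_eq_mul]
    · ring
    · exact intervalIntegrable_const
    · exact (continuous_const.mul (continuous_const.sub hχc)).intervalIntegrable _ _
  have e2 : 0 ≤ ∫ θ in (0 : ℝ)..(2 * Real.pi), (F' θ - F θ) := by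
    rw [intervalIntegral.integral_sub (hFc'.intervalIntegrable _ _) (hFc.intervalIntegrable _ _)]
    linarith
  rw [e0] at e2
  have e3 : (Real.sin b + 2 * (Real.cos b / Real.sin b)) *
      ∫ θ in (0 : ℝ)..(2 * Real.pi), (1 - χ θ) ≤
      (Real.sin b + 2 * (Real.cos b / Real.sin b)) * t ^ 2 :=
    mul_le_mul_of_nonneg_left hint (by positivity)
  have e4 : Real.sin b * (2 * Real.pi) ≤
      (Real.sin b + 2 * (Real.cos b / Real.sin b)) * t ^ 2 := by linarith
  have e5 : Real.sin b ^ 2 * (2 * Real.pi) ≤ (Real.sin b ^ 2 + 2 * Real.cos b) * t ^ 2 := by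
    have e6 := mul_le_mul_of_nonneg_left e4 hs.le
    have e7 : Real.sin b * ((Real.sin b + 2 * (Real.cos b / Real.sin b)) * t ^ 2) =
        (Real.sin b ^ 2 + 2 * Real.cos b) * t ^ 2 := by
      field_simp
    rw [e7] at e6
    linear_combination e6
  have hsb1 : Real.sin b ^ 2 ≤ 1 := Real.sin_sq_le_one b
  have e8 : (Real.sin b ^ 2 + 2 * Real.cos b) * t ^ 2 ≤ 3 * t ^ 2 :=
    mul_le_mul_of_nonneg_right (by linarith) (sq_nonneg t)
  have e9 : (2 * t) ^ 2 ≤ Real.sin b ^ 2 := by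
    apply pow_le_pow_left₀ (by linarith) hs2
  have e10 : Real.sin b ^ 2 * 6 ≤ Real.sin b ^ 2 * (2 * Real.pi) :=
    mul_le_mul_of_nonneg_left (by linarith) (sq_nonneg _)
  have e11 : 0 < t ^ 2 := by positivity
  have e12 : (2 * t) ^ 2 = 4 * t ^ 2 := by ring
  rw [e12] at e9
  linarith

end Pool.Agent.Lib.MP_95e7ec_an
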