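import Mathlib
import Pool.Agent.Lib.MP_95e7ec_an.Rw.Pinch

/-!
# Rw, AngleSet: the measure of the angles with a closed orbit in a dominated zone
-/

set_option autoImplicit false

open Set Filter Topology MeasureTheory
open scoped ContDiff ENNReal

namespace Pool.Agent.Lib.MP_95e7ec_an

/-- Proof. If `a₀` is in the set, `pinch` shows that the set is contained in
`Ioo (a₀-8t) (a₀+8t) ∪ Ioo 0 (8t) ∪ Ioo (π-8t) π`, of measure at most `32 t`. -/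
theorem zone_angles {Φ : ℝ × ℝ → ℝ × ℝ} (hΦ : ContDiff ℝ 2 Φ)
    (hper : ∀ p : ℝ × ℝ, Φ (p + (0, 2 * Real.pi)) = Φ p) {m t : ℝ} (ht : 0 < t)
    (ht1 : t ≤ 1 / 20) (hm : m ≤ Real.tan (2 * t)) {G I : Set ℝ}
    (hG : ∀ x : ℝ, ∃ c ∈ G, x ≤ c ∧ c ≤ x + t) (hZ : Zone Φ m G I) (hD : Dominated Φ t I) :
    volume {a : ℝ | a ∈ Set.Ioo 0 Real.pi ∧ ∃ C : Set (ℝ × ℝ), PosOrb Φ I a C} ≤
      ENNReal.ofReal (32 * t) := by
  set S : Set ℝ := {a : ℝ | a ∈ Set.Ioo 0 Real.pi ∧ ∃ C : Set (ℝ × ℝ), PosOrb Φ I a C} with hS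
  rcases S.eq_empty_or_nonempty with hemp | ⟨a₀, ha₀⟩
  · rw [hemp]
    simp
  have key : ∀ a ∈ S, ∀ a' ∈ S, a + 8 * t ≤ a' → Real.pi - 8 * t < a' - a := by
    rintro a ⟨ha, C, hC⟩ a' ⟨ha', C', hC'⟩ h
    by_contra hcon
    exact pinch hΦ hper ht ht1 hm hG hZ hD hC hC' h (by linarith)
  have hsub : S ⊆ (Set.Ioo (a₀ - 8 * t) (a₀ + 8 * t) ∪ Set.Ioo 0 (8 * t)) ∪
      Set.Ioo (Real.pi - 8 * t) Real.pi := by
    intro a ha
    by_cases h1 : a₀ + 8 * t ≤ a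
    · have h2 := key a₀ ha₀ a ha h1
      exact Or.inr ⟨by linarith [ha₀.1.1], ha.1.2⟩
    · by_cases h3 : a + 8 * t ≤ a₀
      · have h2 := key a ha a₀ ha₀ h3
        exact Or.inl (Or.inr ⟨ha.1.1, by linarith [ha₀.1.2]⟩)
      · exact Or.inl (Or.inl ⟨by linarith, by linarith⟩)
  calc volume S ≤ volume ((Set.Ioo (a₀ - 8 * t) (a₀ + 8 * t) ∪ Set.Ioo 0 (8 * t)) ∪
        Set.Ioo (Real.pi - 8 * t) Real.pi) := measure_mono hsub
    _ ≤ (volume (Set.Ioo (a₀ - 8 * t) (a₀ + 8 * t)) + volume (Set.Ioo 0 (8 * t))) +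
        volume (Set.Ioo (Real.pi - 8 * t) Real.pi) :=
        (measure_union_le _ _).trans (add_le_add (measure_union_le _ _) le_rfl)
    _ = ENNReal.ofReal (32 * t) := by
        rw [Real.volume_Ioo, Real.volume_Ioo, Real.volume_Ioo,
          ← ENNReal.ofReal_add (by linarith) (by linarith),
          ← ENNReal.ofReal_add (by linarith) (by linarith)]
        congr 1
        ring

end Pool.Agent.Lib.MP_95e7ec_an
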