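import Mathlib
import Pool.Agent.Lib.MP_95e7ec_an.Rw.Defs
import Pool.Agent.Lib.MP_95e7ec_an.Rq.Comp
import Pool.Agent.Lib.MP_95e7ec_an.Rq.Lift

/-!
# Rw, CompW: the zones
-/

set_option autoImplicit false

open Set Filter Topology MeasureTheory
open scoped ContDiff ENNReal

namespace Pool.Agent.Lib.MP_95e7ec_an

/-- copy of `zone_zoneI` (Rq/Comp.lean) -/
theorem zone_zoneI3 {Φ : ℝ × ℝ → ℝ × ℝ} {t m D : ℝ} {G : Set ℝ} {U : Finset ℝ}
    (h : ZDat Φ t m D G U) (k : ℕ) : Zone Φ m G (zoneI U D k) := by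
  refine ⟨⟨?_⟩, fun p hp => h.ne p hp.1, fun c hc p hp h0 => h.slope c hc p hp.1 h0⟩
  intro s hs s' hs' x hx
  obtain ⟨hs1, hs2⟩ := hs
  obtain ⟨hs1', hs2'⟩ := hs'
  have hss : s ≤ s' := hx.1.trans hx.2
  have hsub : U.filter (· < s) ⊆ U.filter (· < s') := by
    intro u hu
    rw [Finset.mem_filter] at hu ⊢
    exact ⟨hu.1, lt_of_lt_of_le hu.2 hss⟩
  have heq : U.filter (· < s) = U.filter (· < s') :=
    Finset.eq_of_subset_of_card_le hsub (by rw [hs2, hs2'])
  refine ⟨fun u hu => ?_, ?_⟩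
  · by_cases hus : u < s
    · have h1 := hs1 u hu
      rw [abs_of_pos (by linarith)] at h1
      rw [abs_of_pos (by linarith [hx.1])]
      linarith [hx.1]
    · have h2 : ¬ u < s' := by
        intro h3
        have h4 : u ∈ U.filter (· < s') := Finset.mem_filter.2 ⟨hu, h3⟩
        rw [← heq, Finset.mem_filter] at h4
        exact hus h4.2
      have h1 := hs1' u hu
      have h3 := not_lt.1 h2
      rw [abs_of_nonpos (by linarith)] at h1
      rw [abs_of_nonpos (by linarith [hx.2])]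
      linarith [hx.2]
  · have h1 : U.filter (· < s) ⊆ U.filter (· < x) := by
      intro u hu
      rw [Finset.mem_filter] at hu ⊢
      exact ⟨hu.1, lt_of_lt_of_le hu.2 hx.1⟩
    have h2 : U.filter (· < x) ⊆ U.filter (· < s') := by
      intro u hu
      rw [Finset.mem_filter] at hu ⊢
      exact ⟨hu.1, lt_of_lt_of_le hu.2 hx.2⟩
    have h3 := Finset.card_le_card h1
    have h4 := Finset.card_le_card h2
    rw [hs2] at h3
    rw [hs2'] at h4
    exact le_antisymm h4 h3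

private theorem CompW_nm_neg (u : ℝ × ℝ) : nm (-u) = nm u := by simp [nm]

private theorem CompW_lev_neg (Φ : ℝ × ℝ → ℝ × ℝ) (c : ℝ) :
    lev (fun p => -Φ p) c = fun p => -lev Φ c p := by
  funext p
  simp only [lev, turn, Prod.fst_neg, Prod.snd_neg]
  ring

/-- the same constants with `-W` -/
theorem Dominated.neg {Φ : ℝ × ℝ → ℝ × ℝ} {t : ℝ} {I : Set ℝ} (h : Dominated Φ t I) :
    Dominated (fun p => -Φ p) t I := by
  obtain ⟨k, W, ν, δ, κ, hW, hper, hν, hδ, hκ, hle, hvol, hdom⟩ := h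
  refine ⟨k, fun θ => -W θ, ν, δ, κ, hW.neg, fun θ => ?_, hν, hδ, hκ, hle, ?_, fun p hp => ?_⟩
  · simp only [hper θ]
  · simp only [CompW_nm_neg]
    exact hvol
  · have e : -Φ p - Real.exp (k * p.1) • -W p.2 = -(Φ p - Real.exp (k * p.1) • W p.2) := by
      rw [smul_neg]
      abel
    rw [e, CompW_nm_neg]
    exact hdom p hp

/-- copy of `ZData.neg` -/
theorem ZDat.neg {Φ : ℝ × ℝ → ℝ × ℝ} {t m D : ℝ} {G : Set ℝ} {U : Finset ℝ}
    (h : ZDat Φ t m D G U) : ZDat (fun p => -Φ p) t m D G U := by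
  refine ⟨h.m_le, h.dense, h.D_nonneg, fun p hp => neg_ne_zero.2 (h.ne p hp),
    fun c hc p hp h0 => ?_, fun I h1 h2 h3 => (h.dom I h1 h2 h3).neg⟩
  rw [CompW_lev_neg] at h0 ⊢
  have h1 := h.slope c hc p hp (neg_eq_zero.1 h0)
  have e1 : d1 (fun p => -lev Φ c p) p = -d1 (lev Φ c) p := by
    unfold d1
    rw [fderiv_fun_neg]
    rfl
  have e2 : d2 (fun p => -lev Φ c p) p = -d2 (lev Φ c) p := by
    unfold d2
    rw [fderiv_fun_neg]
    rfl
  rw [e1, e2, abs_neg, abs_neg]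
  exact h1

private theorem CompW_nm_cyl (p : ℝ × ℝ) : nm (cyl p) = Real.exp p.1 := by
  unfold nm cyl
  simp only
  rw [show (Real.exp p.1 * Real.cos p.2) ^ 2 + (Real.exp p.1 * Real.sin p.2) ^ 2 =
    Real.exp p.1 ^ 2 * (Real.sin p.2 ^ 2 + Real.cos p.2 ^ 2) by ring, Real.sin_sq_add_cos_sq,
    mul_one, Real.sqrt_sq (Real.exp_pos _).le]

private theorem CompW_turn_neg (a : ℝ) (F : ℝ × ℝ → ℝ × ℝ) :
    turn a (fun p => -F p) = fun p => -turn a F p := by
  funext p
  unfold turn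
  ext
  · simp only [Prod.fst_neg, Prod.snd_neg]
    ring
  · simp only [Prod.fst_neg, Prod.snd_neg]
    ring

private theorem CompW_contDiff_turn {v : ℝ × ℝ → ℝ × ℝ} (hv : ContDiff ℝ 1 v) (a : ℝ) :
    ContDiff ℝ 1 (turn a v) := by
  have h1 : ContDiff ℝ 1 fun z => (v z).1 := contDiff_fst.comp hv
  have h2 : ContDiff ℝ 1 fun z => (v z).2 := contDiff_snd.comp hv
  unfold turn
  exact ((contDiff_const.mul h1).sub (contDiff_const.mul h2)).prodMk
    ((contDiff_const.mul h1).add (contDiff_const.mul h2))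

private theorem CompW_turn_zero {a : ℝ} {v : ℝ × ℝ → ℝ × ℝ} {z : ℝ × ℝ} (h : turn a v z = 0) :
    v z = 0 := by
  unfold turn at h
  have e1 := congrArg Prod.fst h
  have e2 := congrArg Prod.snd h
  simp only [Prod.fst_zero, Prod.snd_zero] at e1 e2
  have h4 := Real.sin_sq_add_cos_sq a
  ext
  · simp only [Prod.fst_zero]
    linear_combination Real.cos a * e1 + Real.sin a * e2 - (v z).1 * h4
  · simp only [Prod.snd_zero]
    linear_combination Real.cos a * e2 - Real.sin a * e1 - (v z).2 * h4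

/-- copy of `orbit_in_zone` (Rq/Lift.lean) -/
theorem orbit_in_zone3 {v : ℝ × ℝ → ℝ × ℝ} (hv : ContDiff ℝ 1 v) (h0 : v 0 = 0)
    (hcf : ContDiff ℝ 1 (cf v)) {t m D : ℝ} {G : Set ℝ} {U : Finset ℝ}
    (h : ZDat (cf v) t m D G U) {a : ℝ} {C : Set (ℝ × ℝ)} (hC : IsClosedOrbit (turn a v) C)
    (hout : ∀ z ∈ C, ∀ u ∈ U, D < |Real.log (nm z) - u|) :
    ∃ k ≤ U.card, PosOrb (cf v) (zoneI U D k) a C ∨
      PosOrb (fun p => -cf v p) (zoneI U D k) a C := by
  have hvt : ContDiff ℝ 1 (turn a v) := CompW_contDiff_turn hv a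
  have hFt : ContDiff ℝ 1 (turn a (cf v)) := CompW_contDiff_turn hcf a
  have h0C : (0 : ℝ × ℝ) ∉ C := by
    intro hcon
    refine hC.ne_zero_of_contDiff hvt hcon ?_
    unfold turn
    rw [h0]
    simp
  obtain ⟨σ, T, k, hσ, rfl⟩ := cyl_lift ((cylField_cf v).turn a) hvt.continuous hFt.continuous
    hC h0C
  have hσc : Continuous σ := continuous_iff_continuousAt.2 fun x => (hσ.2.1 x).continuousAt
  obtain ⟨j, hj, hjz⟩ := exists_zoneI (U := U) (D := D) h.D_nonneg (r := fun x => (σ x).1)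
    (continuous_fst.comp hσc) (by
      intro x u hu
      have h1 := hout _ ⟨x, rfl⟩ u hu
      simp only [CompW_nm_cyl, Real.log_exp] at h1
      exact h1)
  have hzone := zone_zoneI3 h j
  refine ⟨j, hj, ?_⟩
  rcases lt_trichotomy k 0 with hk | hk | hk
  · right
    refine ⟨fun x => σ (-x), T, -k, by omega, ⟨hσ.1, fun x => ?_, fun x => ?_, ?_⟩,
      fun x => hjz (-x), ?_⟩
    · have e1 := hσ.2.1 (-x)
      have e2 := HasDerivAt.scomp x e1 (hasDerivAt_neg x)
      rw [CompW_turn_neg]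
      refine e2.congr_deriv ?_
      simp
    · have e1 := hσ.2.2.1 (-(x + T))
      rw [show -(x + T) + T = -x by ring] at e1
      simp only
      rw [e1]
      ext
      · simp
      · simp
    · obtain ⟨x, y, hxy⟩ := hσ.2.2.2
      exact ⟨-x, -y, by simpa using hxy⟩
    · ext z
      constructor
      · rintro ⟨x, rfl⟩
        exact ⟨-x, by simp⟩
      · rintro ⟨x, rfl⟩
        exact ⟨-x, rfl⟩
  · exfalso
    subst hk
    exact zone_no_zero hFt hzone.conn (fun p hp hcon => hzone.ne p hp (CompW_turn_zero hcon)) hσ hjz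
  · left
    exact ⟨σ, T, k, hk, hσ, hjz, rfl⟩

end Pool.Agent.Lib.MP_95e7ec_an
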