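import Mathlib
import Pool.Agent.Lib.MP_95e7ec_an.Rq.Defs
import Pool.Agent.Lib.MP_95e7ec_an.Orbits

/-!
# Rw, Trivial: the radial fields
-/

set_option autoImplicit false

open Set Filter Topology MeasureTheory
open scoped ContDiff ENNReal

namespace Pool.Agent.Lib.MP_95e7ec_an

/-- Proof. `(turn c₀ (wf v) z).2 = 0` gives `wf v z = r (cos c₀, -sin c₀)`, `|r| = nm z * nm (v z)`. Along a closed
orbit `γ` of `turn a v` (`IsClosedOrbit.exists_param_of_contDiff` or the like) `0` is not on the orbit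
(`v 0 = 0`) and `v` does not vanish, so `r (γ t) ≠ 0`; `r = (turn c₀ (wf v)).1` is continuous, so it has a constant
sign along `γ`. The derivative of `nm (γ t)²` is `2 (wf (turn a v) (γ t)).1 = 2 r cos (a - c₀)`: of constant sign and
never `0`, so `nm (γ t)²` is strictly monotone, but it is periodic. -/
theorem radial_no_orbit {v : ℝ × ℝ → ℝ × ℝ} (hv : ContDiff ℝ 1 v) (h0 : v 0 = 0) {c₀ : ℝ}
    (h : ∀ z, (turn c₀ (wf v) z).2 = 0) {a : ℝ} (ha : Real.cos (a - c₀) ≠ 0)
    {C : Set (ℝ × ℝ)} (hC : IsClosedOrbit (turn a v) C) : False := by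
  have hta : ContDiff ℝ 1 (turn a v) := by
    have h1 : ContDiff ℝ 1 (fun z => (v z).1) := hv.fst
    have h2 : ContDiff ℝ 1 (fun z => (v z).2) := hv.snd
    exact ((contDiff_const.mul h1).sub (contDiff_const.mul h2)).prodMk
      ((contDiff_const.mul h1).add (contDiff_const.mul h2))
  have hC' := hC
  obtain ⟨γ, T, hT, hγ, hper, _, hCeq⟩ := hC
  have hN : ∀ t, HasDerivAt (fun t => (γ t).1 * (γ t).1 + (γ t).2 * (γ t).2)
      ((turn a v (γ t)).1 * (γ t).1 + (γ t).1 * (turn a v (γ t)).1 +
        ((turn a v (γ t)).2 * (γ t).2 + (γ t).2 * (turn a v (γ t)).2)) t := by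
    intro t
    have h1 : HasDerivAt (fun t => (γ t).1) (turn a v (γ t)).1 t := (hγ t).fst
    have h2 : HasDerivAt (fun t => (γ t).2) (turn a v (γ t)).2 t := (hγ t).snd
    exact (h1.mul h1).add (h2.mul h2)
  obtain ⟨c, _, hc⟩ := exists_hasDerivAt_eq_zero hT
    (fun t _ => (hN t).continuousAt.continuousWithinAt)
    (by
      have := hper 0
      rw [zero_add] at this
      simp only [this]) (fun t _ => hN t)
  have hmem : γ c ∈ C := by
    rw [hCeq]
    exact ⟨c, rfl⟩
  have hne := hC'.ne_zero_of_contDiff hta hmem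
  apply hne
  have hw := h (γ c)
  simp only [turn, wf] at hc hw
  rw [Real.cos_sub] at ha
  have hsc := Real.sin_sq_add_cos_sq c₀
  set x := (γ c).1
  set y := (γ c).2
  set p := (v (γ c)).1
  set q := (v (γ c)).2
  have hr : Real.cos c₀ * (x * p + y * q) - Real.sin c₀ * (x * q - y * p) = 0 := by
    have : (Real.cos a * Real.cos c₀ + Real.sin a * Real.sin c₀) *
        (Real.cos c₀ * (x * p + y * q) - Real.sin c₀ * (x * q - y * p)) = 0 := by
      linear_combination (1 / 2 : ℝ) * hc + (Real.cos a * (x * p + y * q) -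
        Real.sin a * (x * q - y * p)) * hsc +
        (Real.sin a * Real.cos c₀ - Real.cos a * Real.sin c₀) * hw
    exact (mul_eq_zero.1 this).resolve_left ha
  have hw1 : x * p + y * q = 0 := by
    linear_combination Real.cos c₀ * hr + Real.sin c₀ * hw - (x * p + y * q) * hsc
  have hw2 : x * q - y * p = 0 := by
    linear_combination -Real.sin c₀ * hr + Real.cos c₀ * hw - (x * q - y * p) * hsc
  have hprod : (x ^ 2 + y ^ 2) * (p ^ 2 + q ^ 2) = 0 := by
    linear_combination (x * p + y * q) * hw1 + (x * q - y * p) * hw2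
  have hv0 : v (γ c) = 0 := by
    rcases mul_eq_zero.1 hprod with h1 | h1
    · have hx : x = 0 := by nlinarith [sq_nonneg x, sq_nonneg y]
      have hy : y = 0 := by nlinarith [sq_nonneg x, sq_nonneg y]
      have : γ c = 0 := Prod.ext hx hy
      rw [this, h0]
    · have hx : p = 0 := by nlinarith [sq_nonneg p, sq_nonneg q]
      have hy : q = 0 := by nlinarith [sq_nonneg p, sq_nonneg q]
      exact Prod.ext hx hy
  simp [turn, hv0]

/-- the zeros of the cosine are countable -/
theorem cos_zero_null (c₀ : ℝ) : volume {a : ℝ | Real.cos (a - c₀) = 0} = 0 := by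
  apply Set.Countable.measure_zero
  apply (Set.countable_range (fun k : ℤ => (2 * (k : ℝ) + 1) * Real.pi / 2 + c₀)).mono
  intro a ha
  obtain ⟨k, hk⟩ := Real.cos_eq_zero_iff.1 ha
  exact ⟨k, by simp only; linarith⟩

end Pool.Agent.Lib.MP_95e7ec_an
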