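import Mathlib

/-!
# Rw, Width: the numerical estimates for the width of the exceptional intervals
-/

set_option autoImplicit false

open Set Filter Topology MeasureTheory
open scoped ContDiff ENNReal

namespace Pool.Agent.Lib.MP_95e7ec_an

private lemma width_x {n : ℕ} (hn : 1 ≤ n) {t : ℝ} (ht : 0 < t) (ht1 : t ≤ 1 / 20) :
    40 * (n : ℝ) ≤ 2 * n / t := by
  have hN : (1 : ℝ) ≤ n := by exact_mod_cast hn
  rw [le_div_iff₀ ht]
  nlinarith

/-- `L = log (2n/t) ≥ 3.6` -/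
theorem width_L {n : ℕ} (hn : 1 ≤ n) {t : ℝ} (ht : 0 < t) (ht1 : t ≤ 1 / 20) :
    36 / 10 ≤ Real.log (2 * n / t) := by
  have hN : (1 : ℝ) ≤ n := by exact_mod_cast hn
  have hx := width_x hn ht ht1
  have h40 : (40 : ℝ) ≤ 2 * n / t := by linarith
  rw [Real.le_log_iff_exp_le (by linarith)]
  refine le_trans ?_ h40
  have h1 : Real.exp (36 / 10) ^ 5 ≤ 40 ^ 5 := by
    have h2 : Real.exp (36 / 10) ^ 5 = Real.exp 1 ^ 18 := by
      rw [← Real.exp_nat_mul, ← Real.exp_nat_mul]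
      norm_num
    rw [h2]
    calc Real.exp 1 ^ 18 ≤ 2.7182818286 ^ 18 :=
          pow_le_pow_left₀ (Real.exp_pos 1).le Real.exp_one_lt_d9.le 18
      _ ≤ 40 ^ 5 := by norm_num
  exact le_of_pow_le_pow_left₀ (by norm_num) (by norm_num) h1

private lemma width_k {n : ℕ} (hn : 1 ≤ n) {k : ℝ}
    (hk : k ≤ 2 * ((8 * ((n : ℝ) + 1) ^ 2 + 1) * (8 * ((n : ℝ) + 1) + 1)) + ((n : ℝ) + 2)) :
    k + 1 ≤ 1126 * (n : ℝ) ^ 3 := by
  have hN : (1 : ℝ) ≤ n := by exact_mod_cast hn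
  have h1 : 8 * ((n : ℝ) + 1) ^ 2 + 1 ≤ 33 * (n : ℝ) ^ 2 := by nlinarith
  have h2 : 8 * ((n : ℝ) + 1) + 1 ≤ 17 * (n : ℝ) := by linarith
  have h3 : (8 * ((n : ℝ) + 1) ^ 2 + 1) * (8 * ((n : ℝ) + 1) + 1) ≤
      (33 * (n : ℝ) ^ 2) * (17 * (n : ℝ)) := by
    apply mul_le_mul h1 h2 (by positivity) (by positivity)
  have h4 : (n : ℝ) ≤ (n : ℝ) ^ 3 := by nlinarith [sq_nonneg ((n : ℝ)), sq_nonneg ((n : ℝ) - 1)]
  have h5 : (1 : ℝ) ≤ (n : ℝ) ^ 3 := by linarith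
  nlinarith

/-- Proof. `L = log (2n/t)`. `8(n+1)²+1 ≤ 33 n²`, `8(n+1)+1 ≤ 17 n`, so `k + 1 ≤ 1126 n³` and
`log (8 (k+1)/t) ≤ log (9008 n³/t) ≤ log 1126 + 3 L ≤ 5 L`, `log (33 n²) ≤ log (33/4) + 2 L ≤ 3 L`; the sum is
`≤ 3 L + 16 n · 5 L ≤ 83 n L ≤ 100 n L - 1`. -/
theorem width_special {n : ℕ} (hn : 1 ≤ n) {t : ℝ} (ht : 0 < t) (ht1 : t ≤ 1 / 20) {k : ℝ}
    (hk0 : 0 ≤ k)
    (hk : k ≤ 2 * ((8 * ((n : ℝ) + 1) ^ 2 + 1) * (8 * ((n : ℝ) + 1) + 1)) + ((n : ℝ) + 2)) :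
    Real.log (8 * ((n : ℝ) + 1) ^ 2 + 1) +
        8 * ((n : ℝ) + 1) * Real.log (2 / (t / (4 * (k + 1)))) ≤
      100 * n * Real.log (2 * n / t) - 1 := by
  have hN : (1 : ℝ) ≤ n := by exact_mod_cast hn
  have hx := width_x hn ht ht1
  have hL := width_L hn ht ht1
  have hk1 := width_k hn hk
  set x : ℝ := 2 * n / t with hxdef
  set L : ℝ := Real.log x with hLdef
  have hx0 : 0 < x := by linarith
  have h1 : 8 * ((n : ℝ) + 1) ^ 2 + 1 ≤ x ^ 2 := by nlinarith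
  have h2 : Real.log (8 * ((n : ℝ) + 1) ^ 2 + 1) ≤ 2 * L := by
    calc Real.log (8 * ((n : ℝ) + 1) ^ 2 + 1) ≤ Real.log (x ^ 2) :=
          Real.log_le_log (by positivity) h1
      _ = 2 * L := by rw [Real.log_pow, ← hLdef]; norm_num
  have h3 : 2 / (t / (4 * (k + 1))) ≤ x ^ 4 := by
    have e1 : 2 / (t / (4 * (k + 1))) = 8 * (k + 1) / t := by
      field_simp
      ring
    have e2 : 8 * (k + 1) / t ≤ 9008 * (n : ℝ) ^ 3 / t := by
      apply div_le_div_of_nonneg_right _ ht.le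
      linarith
    have e3 : 9008 * (n : ℝ) ^ 3 / t = 4504 * (n : ℝ) ^ 2 * x := by
      rw [hxdef]
      field_simp
      ring
    have e4 : 4504 * (n : ℝ) ^ 2 * x ≤ x ^ 4 := by
      have e5 : 4504 * (n : ℝ) ^ 2 ≤ x ^ 3 := by
        have e6 : (40 * (n : ℝ)) ^ 2 ≤ x ^ 2 := pow_le_pow_left₀ (by positivity) hx 2
        have e7 : (40 : ℝ) ≤ x := by linarith
        nlinarith [mul_le_mul e6 e7 (by norm_num) (by positivity), sq_nonneg (n : ℝ)]
      calc 4504 * (n : ℝ) ^ 2 * x ≤ x ^ 3 * x := mul_le_mul_of_nonneg_right e5 hx0.le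
        _ = x ^ 4 := by ring
    rw [e1]
    exact e2.trans (e3.le.trans e4)
  have h4 : Real.log (2 / (t / (4 * (k + 1)))) ≤ 4 * L := by
    calc Real.log (2 / (t / (4 * (k + 1)))) ≤ Real.log (x ^ 4) :=
          Real.log_le_log (by positivity) h3
      _ = 4 * L := by rw [Real.log_pow, ← hLdef]; norm_num
  have h5 : 8 * ((n : ℝ) + 1) * Real.log (2 / (t / (4 * (k + 1)))) ≤
      8 * ((n : ℝ) + 1) * (4 * L) := mul_le_mul_of_nonneg_left h4 (by positivity)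
  have h6 : L ≤ n * L := le_mul_of_one_le_left (by linarith) hN
  nlinarith

private lemma width_exp {n : ℕ} (hn : 1 ≤ n) {t : ℝ} (ht : 0 < t) (ht1 : t ≤ 1 / 20) :
    ((n : ℝ) + 1) * Real.exp (-(100 * n * Real.log (2 * n / t) - 1)) <
      (2 * n / t) / (2 * n / t) ^ (100 * n) / 7 := by
  have hN : (1 : ℝ) ≤ n := by exact_mod_cast hn
  have hx := width_x hn ht ht1
  set x : ℝ := 2 * n / t with hxdef
  have hx0 : 0 < x := by linarith
  have h1 : Real.exp (-(100 * n * Real.log x - 1)) = Real.exp 1 / x ^ (100 * n) := by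
    have e1 : -(100 * n * Real.log x - 1) = 1 - ((100 * n : ℕ) : ℝ) * Real.log x := by
      push_cast
      ring
    rw [e1, Real.exp_sub, Real.exp_nat_mul, Real.exp_log hx0]
  rw [h1]
  have h2 : Real.exp 1 < 2.72 := lt_trans Real.exp_one_lt_d9 (by norm_num)
  have h3 : ((n : ℝ) + 1) * Real.exp 1 < x / 7 := by
    have := Real.exp_pos 1
    nlinarith
  rw [← mul_div_assoc, div_right_comm]
  exact div_lt_div_of_pos_right h3 (by positivity)

/-- Proof. Take logarithms: `log (400 (n+1)) + 3 log (1/t) + (n+1) log (26 (n+2)/t²) ≤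
(log 400 + L) + 3 L + 2n · 3 L ≤ 12 n L ≤ 100 n L - 1` (`26 (n+2)/t² ≤ 78 n/t² ≤ 39 (2n/t)(1/t)`, `log 39 ≤ 1.02 L`). -/
theorem width_pinch {n : ℕ} (hn : 1 ≤ n) {t : ℝ} (ht : 0 < t) (ht1 : t ≤ 1 / 20) :
    200 * (((n : ℝ) + 1) * Real.exp (-(100 * n * Real.log (2 * n / t) - 1))) ≤
      (t ^ 2 / (26 * ((n : ℝ) + 2))) ^ (n + 1) / 2 * t ^ 3 := by
  have hN : (1 : ℝ) ≤ n := by exact_mod_cast hn
  have hx := width_x hn ht ht1
  have hE := width_exp hn ht ht1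
  set x : ℝ := 2 * n / t with hxdef
  have hx0 : 0 < x := by linarith
  have hx40 : 40 ≤ x := by linarith
  have htx : t = 2 * n / x := by
    rw [hxdef]
    field_simp
  have h1 : (1 / x) ≤ t := by
    rw [htx]
    apply div_le_div_of_nonneg_right _ hx0.le
    linarith
  have h2 : (1 / x) ^ 3 ≤ t ^ 2 / (26 * ((n : ℝ) + 2)) := by
    rw [le_div_iff₀ (by positivity)]
    have e1 : (1 / x) ^ 3 * (26 * ((n : ℝ) + 2)) ≤ (1 / x) ^ 3 * (x * 2) := by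
      apply mul_le_mul_of_nonneg_left _ (by positivity)
      linarith
    have e2 : (1 / x) ^ 3 * (x * 2) = 2 * (1 / x) ^ 2 := by
      field_simp
    have e3 : 2 * (1 / x) ^ 2 ≤ t ^ 2 := by
      have e4 : (2 * (1 / x)) ^ 2 ≤ t ^ 2 := by
        apply pow_le_pow_left₀ (by positivity)
        rw [htx, ← mul_div_assoc]
        apply div_le_div_of_nonneg_right _ hx0.le
        linarith
      have e5 : 0 ≤ (1 / x) ^ 2 := by positivity
      nlinarith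
    linarith
  have h3 : ((1 / x) ^ 3) ^ (n + 1) ≤ (t ^ 2 / (26 * ((n : ℝ) + 2))) ^ (n + 1) :=
    pow_le_pow_left₀ (by positivity) h2 _
  have h4 : (1 / x) ^ 3 ≤ t ^ 3 := pow_le_pow_left₀ (by positivity) h1 3
  have h5 : ((1 / x) ^ 3) ^ (n + 1) / 2 * (1 / x) ^ 3 ≤
      (t ^ 2 / (26 * ((n : ℝ) + 2))) ^ (n + 1) / 2 * t ^ 3 := by
    apply mul_le_mul _ h4 (by positivity) (by positivity)
    linarith
  refine le_trans ?_ h5
  have h6 : ((1 / x) ^ 3) ^ (n + 1) / 2 * (1 / x) ^ 3 = 1 / (2 * x ^ (3 * n + 6)) := by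
    rw [← pow_mul, one_div_pow, one_div_pow, pow_add x (3 * n) 6]
    rw [show 3 * (n + 1) = 3 * n + 3 by ring, pow_add x (3 * n) 3]
    field_simp
  rw [h6]
  have h7 : 200 * (((n : ℝ) + 1) * Real.exp (-(100 * n * Real.log x - 1))) ≤
      200 * (x / x ^ (100 * n) / 7) := by linarith
  refine h7.trans ?_
  have h8 : 100 * n = (3 * n + 6) + 1 + (97 * n - 7) := by omega
  have h9 : x ^ (100 * n) = x ^ (3 * n + 6) * x * x ^ (97 * n - 7) := by
    rw [h8, pow_add, pow_add, pow_one]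
  rw [h9]
  have h10 : 200 * (x / (x ^ (3 * n + 6) * x * x ^ (97 * n - 7)) / 7) =
      (200 / 7 / x ^ (97 * n - 7)) * (1 / x ^ (3 * n + 6)) := by
    field_simp
  rw [h10]
  have h11 : 1 / (2 * x ^ (3 * n + 6)) = (1 / 2) * (1 / x ^ (3 * n + 6)) := by
    field_simp
  rw [h11]
  apply mul_le_mul_of_nonneg_right _ (by positivity)
  rw [div_le_iff₀ (by positivity)]
  have h12 : x ^ 2 ≤ x ^ (97 * n - 7) := pow_le_pow_right₀ (by linarith) (by omega)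
  nlinarith

/-- Proof. Logarithms again: `log (n+1) + log (4(k+1)/t) + (n+1) log (8 (n+3)/m) ≤ L + 5 L + 2n · 2 L < 100 n L - 1`. -/
theorem width_ray {n : ℕ} (hn : 1 ≤ n) {t : ℝ} (ht : 0 < t) (ht1 : t ≤ 1 / 20) {k : ℝ}
    (hk0 : 0 ≤ k)
    (hk : k ≤ 2 * ((8 * ((n : ℝ) + 1) ^ 2 + 1) * (8 * ((n : ℝ) + 1) + 1)) + ((n : ℝ) + 2))
    {m : ℝ} (hm : t ≤ m) :
    ((n : ℝ) + 1) * Real.exp (-(100 * n * Real.log (2 * n / t) - 1)) <
      (t / (4 * (k + 1))) * (m / (8 * ((n : ℝ) + 3))) ^ (n + 1) := by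
  have hN : (1 : ℝ) ≤ n := by exact_mod_cast hn
  have hx := width_x hn ht ht1
  have hE := width_exp hn ht ht1
  have hk1 := width_k hn hk
  set x : ℝ := 2 * n / t with hxdef
  have hx0 : 0 < x := by linarith
  have hx40 : 40 ≤ x := by linarith
  have htx : t = 2 * n / x := by
    rw [hxdef]
    field_simp
  have h1 : (1 / x) ^ 2 ≤ m / (8 * ((n : ℝ) + 3)) := by
    rw [le_div_iff₀ (by positivity)]
    have e1 : (1 / x) ^ 2 * (8 * ((n : ℝ) + 3)) ≤ (1 / x) ^ 2 * (x * (2 * n)) := by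
      apply mul_le_mul_of_nonneg_left _ (by positivity)
      nlinarith
    have e2 : (1 / x) ^ 2 * (x * (2 * n)) = 2 * n / x := by
      field_simp
    linarith
  have h2 : (1 / x) ^ 4 ≤ t / (4 * (k + 1)) := by
    rw [le_div_iff₀ (by positivity)]
    have e0 : (n : ℝ) ^ 2 ≤ x ^ 2 / 1600 := by nlinarith
    have e1 : 4 * (k + 1) ≤ x ^ 3 * (2 * n) := by
      have e2 : 4504 * (n : ℝ) ^ 2 ≤ 2 * x ^ 3 := by nlinarith [sq_nonneg x]
      nlinarith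
    have e3 : (1 / x) ^ 4 * (4 * (k + 1)) ≤ (1 / x) ^ 4 * (x ^ 3 * (2 * n)) :=
      mul_le_mul_of_nonneg_left e1 (by positivity)
    have e4 : (1 / x) ^ 4 * (x ^ 3 * (2 * n)) = 2 * n / x := by
      field_simp
    linarith
  have h3 : ((1 / x) ^ 2) ^ (n + 1) ≤ (m / (8 * ((n : ℝ) + 3))) ^ (n + 1) :=
    pow_le_pow_left₀ (by positivity) h1 _
  have h5 : (1 / x) ^ 4 * ((1 / x) ^ 2) ^ (n + 1) ≤
      (t / (4 * (k + 1))) * (m / (8 * ((n : ℝ) + 3))) ^ (n + 1) :=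
    mul_le_mul h2 h3 (by positivity) (by positivity)
  refine lt_of_lt_of_le hE (le_trans ?_ h5)
  have h6 : (1 / x) ^ 4 * ((1 / x) ^ 2) ^ (n + 1) = 1 / x ^ (2 * n + 6) := by
    rw [← pow_mul, one_div_pow, one_div_pow]
    rw [show 2 * (n + 1) = 2 * n + 2 by ring, pow_add x (2 * n) 2, pow_add x (2 * n) 6]
    field_simp
  rw [h6]
  have h8 : 100 * n = (2 * n + 6) + 1 + (98 * n - 7) := by omega
  have h9 : x ^ (100 * n) = x ^ (2 * n + 6) * x * x ^ (98 * n - 7) := by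
    rw [h8, pow_add, pow_add, pow_one]
  rw [h9]
  have h10 : x / (x ^ (2 * n + 6) * x * x ^ (98 * n - 7)) / 7 =
      (1 / (7 * x ^ (98 * n - 7))) * (1 / x ^ (2 * n + 6)) := by
    field_simp
  rw [h10]
  have h12 : 1 ≤ x ^ (98 * n - 7) := one_le_pow₀ (by linarith)
  have h13 : 1 / (7 * x ^ (98 * n - 7)) ≤ 1 := by
    rw [div_le_one (by positivity)]
    linarith
  exact mul_le_of_le_one_left (by positivity) h13

/-- `log (2n/t) ≤ 16 log (2n/ε)` for `t = ε/(24000 n⁴)`: `(2n/ε)^16 ≥ 65536 n^5/ε ≥ 48000 n^5/ε = 2n/t`. -/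
theorem width_eps {n : ℕ} (hn : 1 ≤ n) {ε : ℝ} (hε : 0 < ε) (hε1 : ε ≤ 1) :
    Real.log (2 * n / (ε / (24000 * n ^ 4))) ≤ 16 * Real.log (2 * n / ε) := by
  have hN : (1 : ℝ) ≤ n := by exact_mod_cast hn
  have h1 : 2 * (n : ℝ) / (ε / (24000 * n ^ 4)) ≤ (2 * n / ε) ^ 16 := by
    have e1 : 2 * (n : ℝ) / (ε / (24000 * n ^ 4)) = 48000 * n ^ 5 / ε := by
      field_simp
      ring
    have e2 : (2 * (n : ℝ) / ε) ^ 16 = 65536 * n ^ 16 / ε ^ 16 := by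
      rw [div_pow, mul_pow]
      norm_num
    rw [e1, e2]
    have e3 : ε ^ 16 ≤ ε := by
      calc ε ^ 16 ≤ ε ^ 1 := pow_le_pow_of_le_one hε.le hε1 (by norm_num)
        _ = ε := pow_one ε
    have e4 : (n : ℝ) ^ 5 ≤ n ^ 16 := pow_le_pow_right₀ hN (by norm_num)
    have e5 : 0 < (n : ℝ) ^ 5 := by positivity
    apply div_le_div₀ (by positivity) (by linarith) (by positivity) e3
  calc Real.log (2 * n / (ε / (24000 * n ^ 4))) ≤ Real.log ((2 * n / ε) ^ 16) :=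
        Real.log_le_log (by positivity) h1
    _ = 16 * Real.log (2 * n / ε) := by rw [Real.log_pow]; norm_num

end Pool.Agent.Lib.MP_95e7ec_an
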