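import Mathlib
import Pool.Agent.Lib.MP_95e7ec_an.Rw.Defs
import Pool.Agent.Lib.MP_95e7ec_an.Rw.DomData
import Pool.Agent.Lib.MP_95e7ec_an.Rw.SteepRay
import Pool.Agent.Lib.MP_95e7ec_an.Rw.Width
import Pool.Agent.Lib.MP_95e7ec_an.Rq.ZoneData

/-!
# Rw, ZoneDat: the zones of a polynomial field
-/

set_option autoImplicit false

open Set Filter Topology MeasureTheory
open scoped ContDiff ENNReal

namespace Pool.Agent.Lib.MP_95e7ec_an

private theorem ZoneDat_lin (c : ℝ) (u : ℝ × ℝ) :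
    |Real.sin c * u.1 + Real.cos c * u.2| ≤ nm u := by
  unfold nm
  refine Real.abs_le_sqrt ?_
  nlinarith [Real.sin_sq_add_cos_sq c, sq_nonneg (Real.cos c * u.1 - Real.sin c * u.2)]

private theorem ZoneDat_card {n : ℕ} (hn : 1 ≤ n) :
    16 * (n + 1) ^ 2 + (n + 2) ^ 2 + n ^ 2 ≤ 80 * n ^ 2 := by
  have h1 : n + 1 ≤ 2 * n := by omega
  have h2 : n + 2 ≤ 3 * n := by omega
  have h3 := Nat.pow_le_pow_left h1 2
  have h4 := Nat.pow_le_pow_left h2 2
  rw [mul_pow] at h3 h4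
  omega

private theorem ZoneDat_ray {Φ : ℝ × ℝ → ℝ × ℝ} {c : ℝ} {q w : ℝ × ℝ} {E δ ν B : ℝ} (hE : 0 < E)
    (hν : 0 < ν) (h1 : nm (Φ q - E • w) ≤ δ * ν * E)
    (h2 : B * ν ≤ |Real.sin c * w.1 + Real.cos c * w.2|) (h3 : δ < B) : lev Φ c q ≠ 0 := by
  intro h0
  have h4 : Real.sin c * (Φ q).1 + Real.cos c * (Φ q).2 = 0 := h0
  have h5 := ZoneDat_lin c (Φ q - E • w)
  have h6 : Real.sin c * (Φ q - E • w).1 + Real.cos c * (Φ q - E • w).2 =
      -(E * (Real.sin c * w.1 + Real.cos c * w.2)) := by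
    simp only [Prod.fst_sub, Prod.snd_sub, Prod.smul_fst, Prod.smul_snd, smul_eq_mul]
    linear_combination h4
  rw [h6, abs_neg, abs_mul, abs_of_pos hE] at h5
  have h7 : E * (B * ν) ≤ E * |Real.sin c * w.1 + Real.cos c * w.2| :=
    mul_le_mul_of_nonneg_left h2 hE.le
  have h8 : δ * ν * E < E * (B * ν) := by
    have : δ * (ν * E) < B * (ν * E) := mul_lt_mul_of_pos_right h3 (by positivity)
    linarith
  linarith

/-- As `zone_data` (Rq/ZoneData.lean, proved by helper67, copy most of it). Proof. `m1 = tan t`, `m2 = tan (2t)`,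
`choose_slope`; `d = n+1`; `t ≤ m ≤ 1`. `S` is the union of the sets of `special_radii` for
`K = Kpol P Q m` and `Kpol P Q (-m)` (`F = wim`, `G = wre`), and of the `S` of `exists_domDat`
(`hne`: `wf (vf P Q)` is not `0` everywhere): `S.card ≤ 2 (8d²+1)(8d+1) + n + 2`; `η = t/(4 (S.card+1))`,
`G = {c | ∀ φ ∈ S, η ≤ |sin (c - φ)|}` (`exists_good`). `U` is the union of the two `U`s of
`special_radii`, of the set of the `log (nm z)`, `z` a zero of `vf P Q` (`exists_finset_zeros`), and of the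
`U` of `exists_domDat`: `U.card ≤ 16 d² + n² + (n+2)² ≤ 80 n²`. `D = 100 n log (2n/t)`.
`slope`: let `D < |p.1 - u|` for all `u ∈ U`. On `I = Icc (p.1 - 1) (p.1 + 1)` all distances are `> D - 1 > 0`.
`DomDat.dom` gives `k`; `DomDat.ray` gives `h ∈ [0,m]`. Apply `not_steep_ray` to `f = lev Φ c`. `hray`:
`lev Φ c (s, p.2+h) = sin c Φ.1 + cos c Φ.2` differs from `e^{ks} (sin c W.1 + cos c W.2)` by at most
`nm (Φ - e^{ks} W) ≤ (n+1) e^{-(D-1)} ν e^{ks} < η (m/(8(n+3)))^(n+1) ν e^{ks}` (`width_ray`), so it is not `0`.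
`hsp`: `kpol_eq_zero` and `special_radii` would give `u ∈ U` with
`|p'.1 - u| ≤ log (8d²+1) + 8d log (2/η) ≤ D - 1` (`width_special`); `wre`, `wim` are not both `0` at `p'` since
its distance from the zero radii is positive.
`dom`: `DomDat.dom` with `D - 1`, `δ = (n+1) e^{-(D-1)}`, `κ = (t²/(26(n+2)))^(n+1)/2`, `DomDat.small` with
`b = t²`, `width_pinch`. -/
theorem zone_dat {n : ℕ} (hn : 1 ≤ n) {P Q : MvPolynomial (Fin 2) ℝ} (hP : P.totalDegree ≤ n)
    (hQ : Q.totalDegree ≤ n) (hPQ : IsRelPrime P Q) {t : ℝ} (ht : 0 < t) (ht1 : t ≤ 1 / 20) :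
    (∃ c₀ : ℝ, ∀ z, (turn c₀ (wf (vf P Q)) z).2 = 0) ∨
      ∃ (m : ℝ) (G : Set ℝ) (U : Finset ℝ),
        ZDat (cf (vf P Q)) t m (100 * n * Real.log (2 * n / t)) G U ∧ U.card ≤ 80 * n ^ 2 := by
  classical
  obtain ⟨Z, hZc, hZ⟩ := exists_finset_zeros P Q hPQ hP hQ
  have hwf0 : ∀ p : ℝ × ℝ, wf (vf P Q) (cyl p) = 0 → cyl p ∈ Z := fun p h =>
    (hZ _).1 (wf_eq_zero (cyl_ne_zero p) h)
  have hray : ∃ s : ℝ, wf (vf P Q) (cyl (s, 0)) ≠ 0 := by
    by_contra hcon
    push Not at hcon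
    have h1 : (Set.range fun s : ℝ => cyl (s, 0)) ⊆ (Z : Set (ℝ × ℝ)) := by
      rintro _ ⟨s, rfl⟩
      exact hwf0 _ (hcon s)
    exact Set.infinite_range_of_injective cyl_ray_injective (Z.finite_toSet.subset h1)
  have htan1 : 0 < Real.tan t := Real.tan_pos_of_pos_of_lt_pi_div_two ht
    (by linarith [Real.pi_gt_three])
  have htan12 : Real.tan t < Real.tan (2 * t) := Real.tan_lt_tan_of_nonneg_of_lt_pi_div_two ht.le
    (by linarith [Real.pi_gt_three]) (by linarith)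
  have htt : t ≤ Real.tan t := (Real.lt_tan ht (by linarith [Real.pi_gt_three])).le
  have htan2 : Real.tan (2 * t) < 1 := by
    rw [← Real.tan_pi_div_four]
    exact Real.tan_lt_tan_of_nonneg_of_lt_pi_div_two (by linarith)
      (by linarith [Real.pi_gt_three]) (by linarith [Real.pi_gt_three])
  obtain ⟨s₀, hs₀⟩ := hray
  rcases choose_slope (P := P) (Q := Q) ⟨_, hs₀⟩ htan1 htan12 with h | ⟨m, hm, hK1, hK2⟩
  · exact Or.inl h
  right
  have htm : t ≤ m := by rcases hm with rfl | rfl <;> linarith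
  have hm0 : 0 < m := ht.trans_le htm
  have hm2 : m ≤ Real.tan (2 * t) := by rcases hm with rfl | rfl <;> linarith
  have hm1 : m ≤ 1 := by linarith
  have hd : 1 ≤ n + 1 := by omega
  have hF := totalDegree_wim hP hQ
  have hG := totalDegree_wre hP hQ
  obtain ⟨S₁, hS₁, h₁⟩ := special_radii hd hK1 (totalDegree_kpol hP hQ m) hF hG
  obtain ⟨S₂, hS₂, h₂⟩ := special_radii hd hK2 (totalDegree_kpol hP hQ (-m)) hF hG
  obtain ⟨U₃, S₃, W, ν, hdat⟩ := exists_domDat n hP hQ ⟨(s₀, 0), hs₀⟩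
  set S := S₁ ∪ S₂ ∪ S₃ with hS
  set η : ℝ := t / (4 * ((S.card : ℝ) + 1)) with hη
  have hη0 : 0 < η := by positivity
  have hη1 : η ≤ 1 := by
    rw [hη, div_le_one (by positivity)]
    have : (0 : ℝ) ≤ S.card := by positivity
    linarith
  obtain ⟨U₁, hU₁, k₁⟩ := h₁ η hη0 hη1
  obtain ⟨U₂, hU₂, k₂⟩ := h₂ η hη0 hη1
  set U₄ : Finset ℝ := Z.image fun z => Real.log (nm z) with hU₄
  have hU₄c : U₄.card ≤ n ^ 2 := Finset.card_image_le.trans hZc
  set U := U₁ ∪ U₂ ∪ U₃ ∪ U₄ with hU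
  set R₁ : ℝ := Real.log (8 * ((n : ℝ) + 1) ^ 2 + 1) + 8 * ((n : ℝ) + 1) * Real.log (2 / η) with hR₁
  have hScard : (S.card : ℝ) ≤ 2 * ((8 * ((n : ℝ) + 1) ^ 2 + 1) * (8 * ((n : ℝ) + 1) + 1)) +
      ((n : ℝ) + 2) := by
    have h4 : S.card ≤ S₁.card + S₂.card + S₃.card :=
      (Finset.card_union_le _ _).trans (Nat.add_le_add_right (Finset.card_union_le _ _) _)
    have h5 : S.card ≤ 2 * ((8 * (n + 1) ^ 2 + 1) * (8 * (n + 1) + 1)) + (n + 2) := by
      refine h4.trans ?_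
      have := hdat.cardS
      omega
    exact_mod_cast h5
  have hsp := width_special hn ht ht1 (k := (S.card : ℝ)) (by positivity) hScard
  have hry := width_ray hn ht ht1 (k := (S.card : ℝ)) (by positivity) hScard htm
  have hpi := width_pinch hn ht ht1
  rw [← hη, ← hR₁] at hsp
  rw [← hη] at hry
  have hL := width_L hn ht ht1
  have hnR : (1 : ℝ) ≤ n := by exact_mod_cast hn
  set D : ℝ := 100 * n * Real.log (2 * n / t) with hD
  have hD1 : 1 < D := by
    have : 1 * (36 / 10) ≤ (n : ℝ) * Real.log (2 * n / t) :=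
      mul_le_mul hnR hL (by norm_num) (by linarith)
    rw [hD]
    nlinarith
  have hne : ∀ p : ℝ × ℝ, (∀ u ∈ U, 0 < |p.1 - u|) → wf (vf P Q) (cyl p) ≠ 0 := by
    intro p hp h0
    have h5 : p.1 ∈ U := by
      rw [hU, Finset.mem_union]
      right
      rw [hU₄, Finset.mem_image]
      exact ⟨_, hwf0 p h0, by rw [nm_cyl, Real.log_exp]⟩
    have h6 := hp _ h5
    rw [sub_self, abs_zero] at h6
    exact lt_irrefl _ h6
  have hfar : ∀ (p : ℝ × ℝ) (s u : ℝ), (∀ u ∈ U, D < |p.1 - u|) →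
      u ∈ U → |s - p.1| ≤ 1 → D - 1 < |s - u| := by
    intro p s u hp hu hs
    have h4 := hp u hu
    have h5 : |p.1 - u| ≤ |s - p.1| + |s - u| := by
      have e : p.1 - u = -(s - p.1) + (s - u) := by ring
      rw [e]
      refine (abs_add_le _ _).trans ?_
      rw [abs_neg]
    linarith
  have hU₃ : ∀ u ∈ U₃, u ∈ U := fun u hu => by rw [hU]; simp [hu]
  refine ⟨m, {c | ∀ φ ∈ S, η ≤ |Real.sin (c - φ)|}, U, ⟨hm2, ?_, by linarith, ?_, ?_, ?_⟩, ?_⟩
  · intro x
    obtain ⟨c, hc1, hc2, hc3⟩ := exists_good S ht (by linarith) x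
    exact ⟨c, hc3, hc1, hc2⟩
  · intro p hp
    exact hne p fun u hu => by
      have := hp u hu
      linarith
  · intro c hc p hp h0
    have hcd : ContDiff ℝ 1 (lev (cf (vf P Q)) c) := by
      have h4 := contDiff_cf P Q (k := 1)
      have h5 : lev (cf (vf P Q)) c = fun p => Real.sin c * (cf (vf P Q) p).1 +
          Real.cos c * (cf (vf P Q) p).2 := rfl
      rw [h5]
      exact (contDiff_const.mul (contDiff_fst.comp h4)).add
        (contDiff_const.mul (contDiff_snd.comp h4))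
    obtain ⟨k, hνk, hdk⟩ := hdat.dom (D - 1) (by linarith) (Icc (p.1 - 1) (p.1 + 1))
      ordConnected_Icc ⟨p.1, by constructor <;> linarith⟩ (fun s hs u hu =>
        hfar p s u hp (hU₃ u hu) (abs_le.2 ⟨by linarith [hs.1], by linarith [hs.2]⟩))
    obtain ⟨h, hh0, hhm, hh⟩ := hdat.ray k η c hη0 (fun φ hφ => hc φ (by rw [hS]; simp [hφ])) m hm0
      hm1 p.2
    refine not_steep_ray hcd hm0 h0 hh0 hhm ?_ ?_
    · intro p' hp' h0' heq
      have hfar' : ∀ u ∈ U, D - 1 < |p'.1 - u| := fun u hu => hfar p p'.1 u hp hu hp'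
      have hnz := hne p' fun u hu => by
        have := hfar' u hu
        linarith
      have hor : ev (wre P Q) (cyl p') ≠ 0 ∨ ev (wim P Q) (cyl p') ≠ 0 := by
        rw [ev_wre, ev_wim]
        by_contra hcon
        push Not at hcon
        exact hnz (Prod.ext hcon.1 hcon.2)
      have hl := h0'
      rw [lev_cf] at hl
      rcases kpol_eq_zero P Q h0' heq with h | h
      · obtain ⟨u, hu, hle⟩ := k₁ c (fun φ hφ => hc φ (by rw [hS]; simp [hφ])) p' hl h hor
        push_cast at hle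
        rw [← hR₁] at hle
        have := hfar' u (by rw [hU]; simp [hu])
        linarith
      · obtain ⟨u, hu, hle⟩ := k₂ c (fun φ hφ => hc φ (by rw [hS]; simp [hφ])) p' hl h hor
        push_cast at hle
        rw [← hR₁] at hle
        have := hfar' u (by rw [hU]; simp [hu])
        linarith
    · intro s hs
      have hsI : s ∈ Icc (p.1 - 1) (p.1 + 1) := by
        obtain ⟨h5, h6⟩ := abs_le.1 hs
        constructor <;> linarith
      exact ZoneDat_ray (Real.exp_pos _) hνk (hdk (s, p.2 + h) hsI) hh hry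
  · intro I hI1 hI2 hI3
    obtain ⟨k, hνk, hdk⟩ := hdat.dom (D - 1) (by linarith) I hI1 hI2 fun s hs u hu => by
      have := hI3 s hs u (hU₃ u hu)
      linarith
    refine ⟨k, W k, ν k, ((n : ℝ) + 1) * Real.exp (-(D - 1)),
      (t ^ 2 / (26 * ((n : ℝ) + 2))) ^ (n + 1) / 2, hdat.cont k, hdat.per k, hνk, by positivity,
      by positivity, hpi, ?_, fun p hp => hdk p hp⟩
    have hsm := hdat.small k (t ^ 2) (by positivity) (by nlinarith)
    have e : 2 * ((t ^ 2 / (26 * ((n : ℝ) + 2))) ^ (n + 1) / 2) * ν k =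
        (t ^ 2 / (26 * ((n : ℝ) + 2))) ^ (n + 1) * ν k := by ring
    rw [e]
    exact hsm
  · have h4 : U.card ≤ U₁.card + U₂.card + U₃.card + U₄.card := by
      refine (Finset.card_union_le _ _).trans (Nat.add_le_add_right ?_ _)
      refine (Finset.card_union_le _ _).trans (Nat.add_le_add_right ?_ _)
      exact Finset.card_union_le _ _
    have h5 := ZoneDat_card hn
    have h6 := hdat.cardU
    omega

end Pool.Agent.Lib.MP_95e7ec_an
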