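import Mathlib
import Pool.Agent.Lib.MP_95e7ec_an.Rw.AngleSet
import Pool.Agent.Lib.MP_95e7ec_an.Rw.ZoneDat
import Pool.Agent.Lib.MP_95e7ec_an.Rw.CompW
import Pool.Agent.Lib.MP_95e7ec_an.Rw.Trivial

/-!
# Rw, DichoW: for most angles every closed orbit meets an exceptional annulus
-/

set_option autoImplicit false

open Set Filter Topology MeasureTheory
open scoped ContDiff ENNReal

namespace Pool.Agent.Lib.MP_95e7ec_an

/-- the angles with a closed orbit in the zone -/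
private def angW (Φ : ℝ × ℝ → ℝ × ℝ) (I : Set ℝ) : Set ℝ :=
  {a : ℝ | a ∈ Set.Ioo 0 Real.pi ∧ ∃ C : Set (ℝ × ℝ), PosOrb Φ I a C}

private theorem angW_le {Φ : ℝ × ℝ → ℝ × ℝ} (hΦ : ContDiff ℝ 2 Φ)
    (hper : ∀ p : ℝ × ℝ, Φ (p + (0, 2 * Real.pi)) = Φ p) {m t D : ℝ} (ht : 0 < t)
    (ht1 : t ≤ 1 / 20) {G : Set ℝ} {U : Finset ℝ} (h : ZDat Φ t m D G U) (k : ℕ) :
    volume (angW Φ (zoneI U D k)) ≤ ENNReal.ofReal (32 * t) := by
  rcases (zoneI U D k).eq_empty_or_nonempty with he | hne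
  · have h0 : angW Φ (zoneI U D k) = ∅ := by
      ext a
      simp only [angW, Set.mem_ofPred_eq, Set.mem_empty_iff_false, iff_false]
      rintro ⟨_, C, σ, T, j, _, _, hI, _⟩
      have := hI 0
      rw [he] at this
      exact this
    rw [h0, measure_empty]
    exact zero_le
  · have hZ := zone_zoneI3 h k
    exact zone_angles hΦ hper ht ht1 h.m_le h.dense hZ (h.dom _ hZ.conn hne fun s hs => hs.1)

/-- Compare `dichotomy` (Rq/Dicho.lean, helper82). Proof. `zone_dat`. In the radial case `B` is the set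
of the zeros of `cos (a - c₀)`, of measure `0`, `U = ∅` (`radial_no_orbit`). Otherwise let `B` be the union over
`k ≤ U.card` of the two sets of `zone_angles` for `Φ = cf (vf P Q)` and for `-Φ` (`ZDat.neg`, `zone_zoneI3`,
`Dominated` from `ZDat.dom` and `Zone.conn`; if the zone is empty the set is empty): measure at most
`(80n²+1) · 2 · 32 t ≤ 6000 n² t`. If `a ∉ B` and `C` has no point with
`|log (nm z) - u| ≤ D`, `orbit_in_zone3` gives a contradiction. -/
theorem dichotomy3 {n : ℕ} (hn : 1 ≤ n) {P Q : MvPolynomial (Fin 2) ℝ} (hP : P.totalDegree ≤ n)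
    (hQ : Q.totalDegree ≤ n) (hPQ : IsRelPrime P Q) (h0 : vf P Q 0 = 0) {t : ℝ} (ht : 0 < t)
    (ht1 : t ≤ 1 / 20) :
    ∃ (B : Set ℝ) (U : Finset ℝ), volume B ≤ ENNReal.ofReal (6000 * n ^ 2 * t) ∧
      U.card ≤ 80 * n ^ 2 ∧
      ∀ a ∈ Set.Ioo 0 Real.pi, a ∉ B → ∀ C, IsClosedOrbit (turn a (vf P Q)) C →
        ∃ u ∈ U, ∃ z ∈ C, |Real.log (nm z) - u| ≤ 100 * n * Real.log (2 * n / t) := by
  have hn1 : (1 : ℝ) ≤ n := by exact_mod_cast hn
  have hn2 : (1 : ℝ) ≤ (n : ℝ) ^ 2 := by nlinarith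
  rcases zone_dat hn hP hQ hPQ ht ht1 with ⟨c₀, h⟩ | ⟨m, G, U, hZ, hU⟩
  · refine ⟨{a : ℝ | Real.cos (a - c₀) = 0}, ∅, ?_, by simp, fun a ha haB C hC => ?_⟩
    · rw [cos_zero_null]
      exact zero_le
    · exact (radial_no_orbit (contDiff_vf P Q) h0 h haB hC).elim
  · set D : ℝ := 100 * n * Real.log (2 * n / t) with hD
    set Φ : ℝ × ℝ → ℝ × ℝ := cf (vf P Q) with hΦ
    have hc2 : ContDiff ℝ 2 Φ := contDiff_cf P Q
    have hc2' : ContDiff ℝ 2 (fun p => -Φ p) := hc2.neg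
    have hper : ∀ p : ℝ × ℝ, Φ (p + (0, 2 * Real.pi)) = Φ p := fun p => cf_period _ p
    have hper' : ∀ p : ℝ × ℝ, (fun p => -Φ p) (p + (0, 2 * Real.pi)) = (fun p => -Φ p) p :=
      fun p => by simp only [hper p]
    refine ⟨⋃ k ∈ Finset.range (U.card + 1), (angW Φ (zoneI U D k) ∪
      angW (fun p => -Φ p) (zoneI U D k)), U, ?_, hU, ?_⟩
    · refine (measure_biUnion_finset_le _ _).trans ?_
      have h1 : ∀ k ∈ Finset.range (U.card + 1), volume (angW Φ (zoneI U D k) ∪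
          angW (fun p => -Φ p) (zoneI U D k)) ≤ ENNReal.ofReal (64 * t) := by
        intro k _
        refine (measure_union_le _ _).trans ((add_le_add (angW_le hc2 hper ht ht1 hZ k)
          (angW_le hc2' hper' ht ht1 hZ.neg k)).trans ?_)
        rw [← ENNReal.ofReal_add (by positivity) (by positivity)]
        exact ENNReal.ofReal_le_ofReal (by linarith)
      refine (Finset.sum_le_sum h1).trans ?_
      rw [Finset.sum_const, Finset.card_range, nsmul_eq_mul, ← ENNReal.ofReal_natCast,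
        ← ENNReal.ofReal_mul (by positivity)]
      refine ENNReal.ofReal_le_ofReal ?_
      have h2 : (U.card : ℝ) ≤ 80 * (n : ℝ) ^ 2 := by exact_mod_cast hU
      push_cast
      have h3 : ((U.card : ℝ) + 1) * 64 ≤ 6000 * (n : ℝ) ^ 2 := by linarith
      calc ((U.card : ℝ) + 1) * (64 * t) = (((U.card : ℝ) + 1) * 64) * t := by ring
        _ ≤ 6000 * (n : ℝ) ^ 2 * t := mul_le_mul_of_nonneg_right h3 ht.le
    · intro a ha haB C hC
      by_cases hout : ∀ z ∈ C, ∀ u ∈ U, D < |Real.log (nm z) - u|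
      · exfalso
        obtain ⟨k, hk, hpos⟩ := orbit_in_zone3 ((contDiff_vf P Q)) h0 (contDiff_cf P Q) hZ hC hout
        have hkr : k ∈ Finset.range (U.card + 1) := Finset.mem_range.2 (by omega)
        rcases hpos with hpos | hpos
        · exact haB (Set.mem_biUnion hkr (Or.inl ⟨ha, C, hpos⟩))
        · exact haB (Set.mem_biUnion hkr (Or.inr ⟨ha, C, hpos⟩))
      · push Not at hout
        obtain ⟨z, hz, u, hu, h⟩ := hout
        exact ⟨u, hu, z, hz, h⟩

end Pool.Agent.Lib.MP_95e7ec_an
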