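import Mathlib
import Pool.Agent.Lib.MP_95e7ec_an.Rw.DichoW
import Pool.Agent.Lib.MP_95e7ec_an.Rw.Width
import Pool.Agent.Lib.MP_95e7ec_an.Rq.Shift

/-!
# Rw, ShiftW: the same for a zero of the field at any point
-/

set_option autoImplicit false

open Set Filter Topology MeasureTheory
open scoped ContDiff ENNReal

namespace Pool.Agent.Lib.MP_95e7ec_an

/-- Copy of `dichotomy_at` (Rq/Shift.lean, helper22) with `dichotomy3`. `R` is the image of
`U ×ˢ range (⌊2D⌋₊+1)` under `(u,i) ↦ exp (u - D + i)`, `D = 100 n L`, `L = log (2n/t) ≥ 3.6` (`width_L`):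
`R.card ≤ 80 n² (200 n L + 1) ≤ 17000 n³ L`. -/
theorem dichotomy_at3 {n : ℕ} (hn : 1 ≤ n) {P Q : MvPolynomial (Fin 2) ℝ}
    (hP : P.totalDegree ≤ n) (hQ : Q.totalDegree ≤ n) (hPQ : IsRelPrime P Q) {q : ℝ × ℝ}
    (h0 : vf P Q q = 0) {t : ℝ} (ht : 0 < t) (ht1 : t ≤ 1 / 20) :
    ∃ (B : Set ℝ) (R : Finset ℝ), volume B ≤ ENNReal.ofReal (6000 * n ^ 2 * t) ∧
      (R.card : ℝ) ≤ 17000 * n ^ 3 * Real.log (2 * n / t) ∧ (∀ r ∈ R, 0 < r) ∧
      ∀ a ∈ Set.Ioo 0 Real.pi, a ∉ B → ∀ C, IsClosedOrbit (turn a (vf P Q)) C →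
        q ∈ convexHull ℝ C → ∃ r ∈ R, IsNear q r (3 * r) C := by
  classical
  obtain ⟨B, U, hB, hU, hmain⟩ := dichotomy3 hn
    ((totalDegree_shiftP q P).trans hP) ((totalDegree_shiftP q Q).trans hQ)
    (isRelPrime_shiftP q hPQ) (by rw [vf_shiftP, zero_add, h0]) ht ht1
  have hn1 : (1 : ℝ) ≤ n := by exact_mod_cast hn
  set L : ℝ := Real.log (2 * n / t) with hL
  have hL1 : 36 / 10 ≤ L := width_L hn ht ht1
  set D : ℝ := 100 * n * L with hD
  have hD0 : 0 ≤ D := by rw [hD]; positivity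
  refine ⟨B, (U ×ˢ Finset.range (⌊2 * D⌋₊ + 1)).image fun p => Real.exp (p.1 - D + p.2), hB,
    ?_, ?_, ?_⟩
  · have h1 : (((U ×ˢ Finset.range (⌊2 * D⌋₊ + 1)).image fun p : ℝ × ℕ =>
        Real.exp (p.1 - D + p.2)).card : ℝ) ≤ U.card * ((⌊2 * D⌋₊ : ℝ) + 1) := by
      have h2 := Finset.card_image_le (s := U ×ˢ Finset.range (⌊2 * D⌋₊ + 1))
        (f := fun p : ℝ × ℕ => Real.exp (p.1 - D + p.2))
      rw [Finset.card_product, Finset.card_range] at h2
      exact_mod_cast h2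
    refine h1.trans ?_
    have h3 : (⌊2 * D⌋₊ : ℝ) ≤ 2 * D := Nat.floor_le (by linarith)
    have h4 : (U.card : ℝ) ≤ 80 * n ^ 2 := by exact_mod_cast hU
    have h5 : (1 : ℝ) ≤ n * L := by nlinarith
    calc (U.card : ℝ) * ((⌊2 * D⌋₊ : ℝ) + 1)
        ≤ (80 * n ^ 2) * (2 * (100 * n * L) + n * L) := by
          apply mul_le_mul h4 _ (by positivity) (by positivity)
          rw [← hD]
          linarith
      _ = 16080 * n ^ 3 * L := by ring
      _ ≤ 17000 * n ^ 3 * L := by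
          apply mul_le_mul_of_nonneg_right _ (by linarith)
          apply mul_le_mul_of_nonneg_right (by norm_num) (by positivity)
  · intro r hr
    obtain ⟨p, _, rfl⟩ := Finset.mem_image.1 hr
    exact Real.exp_pos _
  · intro a ha haB C hC hq
    have hcd : ContDiff ℝ 1 (turn a (vf P Q)) := contDiff_turn (contDiff_vf P Q) a
    have hzero : turn a (vf P Q) q = 0 := turn_eq_zero.2 h0
    have hqC : q ∉ C := fun hqC => hC.ne_zero_of_contDiff hcd hqC hzero
    have hC' : IsClosedOrbit (turn a (vf (shiftP q P) (shiftP q Q)))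
        ((fun y => -q + (ContinuousLinearEquiv.refl ℝ (ℝ × ℝ)) y) '' C) := by
      refine hC.affine (-q) (ContinuousLinearEquiv.refl ℝ (ℝ × ℝ)) 1 one_pos ?_
      intro y
      simp only [ContinuousLinearEquiv.refl_apply, inv_one, one_smul]
      unfold turn
      rw [vf_shiftP]
      have : -q + y + q = y := by abel
      rw [this]
    obtain ⟨u, hu, _, ⟨z, hz, rfl⟩, hzu⟩ := hmain a ha haB _ hC'
    simp only [ContinuousLinearEquiv.refl_apply] at hzu
    have h2 : -q + z = z - q := by abel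
    rw [h2] at hzu
    have hzq : z - q ≠ 0 := by
      intro h
      rw [sub_eq_zero] at h
      exact hqC (h ▸ hz)
    have hpos : 0 < nm (z - q) := nm_pos hzq
    have habs := abs_le.1 hzu
    set x : ℝ := Real.log (nm (z - q)) - (u - D) with hx
    have hx0 : 0 ≤ x := by rw [hx]; linarith [habs.1]
    have hx1 : x ≤ 2 * D := by rw [hx]; linarith [habs.2]
    have hfl := Nat.floor_le hx0
    have hfl' := Nat.lt_floor_add_one x
    have hlog : nm (z - q) = Real.exp (u - D + x) := by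
      rw [hx, ← Real.exp_log hpos]
      congr 1
      rw [Real.exp_log hpos]
      ring
    have hr1 : Real.exp (u - D + (⌊x⌋₊ : ℕ)) ≤ nm (z - q) := by
      rw [hlog]
      exact Real.exp_le_exp.2 (by linarith)
    have hr2 : nm (z - q) ≤ 3 * Real.exp (u - D + (⌊x⌋₊ : ℕ)) := by
      rw [hlog]
      have h3 : Real.exp (u - D + x) ≤ Real.exp (1 + (u - D + (⌊x⌋₊ : ℕ))) :=
        Real.exp_le_exp.2 (by linarith)
      refine h3.trans ?_
      rw [Real.exp_add]
      exact mul_le_mul_of_nonneg_right (by linarith [Real.exp_one_lt_d9]) (Real.exp_pos _).le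
    refine ⟨Real.exp (u - D + (⌊x⌋₊ : ℕ)), Finset.mem_image.2 ⟨(u, ⌊x⌋₊), ?_, rfl⟩,
      ⟨z, hz, hr2⟩, z, hz, ?_⟩
    · rw [Finset.mem_product, Finset.mem_range]
      exact ⟨hu, Nat.lt_succ_of_le (Nat.floor_le_floor hx1)⟩
    · by_contra hcon
      push Not at hcon
      have hcont : ContinuousOn (fun z' : ℝ × ℝ => nm (z - z')) C :=
        (continuous_nm.comp (continuous_const.sub continuous_id)).continuousOn
      obtain ⟨w, hw, hwmax⟩ := hC.isCompact.exists_isMaxOn ⟨z, hz⟩ hcont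
      have h5 : nm (z - q) ≤ nm (z - w) :=
        nm_le_of_mem_hull (fun p hp => hwmax hp) (Real.sqrt_nonneg _) hq
      linarith [hcon w hw]

end Pool.Agent.Lib.MP_95e7ec_an
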