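import Mathlib
import Pool.Agent.Lib.MP_95e7ec_an.Rw.ShiftW
import Pool.Agent.Lib.MP_95e7ec_an.Rq.Centre

/-!
# Rw, CentreW: the closed orbits around one zero of the field
-/

set_option autoImplicit false

open Set Filter Topology MeasureTheory
open scoped ContDiff ENNReal

namespace Pool.Agent.Lib.MP_95e7ec_an

theorem hullN_le_near {v : ℝ × ℝ → ℝ × ℝ} {q : ℝ × ℝ} {a : ℝ} {R : Finset ℝ}
    (h : ∀ C, IsClosedOrbit (turn a v) C → q ∈ convexHull ℝ C →
      ∃ r ∈ R, IsNear q r (3 * r) C) :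
    hullN v q a ≤ ∑ r ∈ R, setSum (nearInd q r (3 * r)) v Set.univ a := by
  classical
  unfold hullN setSum
  set S : Set (Set (ℝ × ℝ)) := {C | IsClosedOrbit (turn a v) C ∧ q ∈ convexHull ℝ C} with hS
  set T : Set (Set (ℝ × ℝ)) := {C | IsClosedOrbit (turn a v) C ∧ C ⊆ univ} with hT
  have h1 : ((S.encard : ℕ∞) : ℝ≥0∞) = ∑' C, S.indicator (fun _ => (1 : ℝ≥0∞)) C := by
    rw [← tsum_subtype, ENNReal.tsum_set_one]
  have h2 : ∀ f : Set (ℝ × ℝ) → ℝ≥0∞,
      ∑' C : {C : Set (ℝ × ℝ) // IsClosedOrbit (turn a v) C ∧ C ⊆ Set.univ}, f C =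
        ∑' C, T.indicator f C := fun f => tsum_subtype T f
  have h3 : ∑ r ∈ R, ∑' C, T.indicator (nearInd q r (3 * r)) C =
      ∑' C, ∑ r ∈ R, T.indicator (nearInd q r (3 * r)) C :=
    (Summable.tsum_finsetSum fun _ _ => ENNReal.summable).symm
  simp only [h2]
  rw [h1, h3]
  refine ENNReal.tsum_le_tsum fun C => ?_
  by_cases hC : C ∈ S
  · have hCT : C ∈ T := ⟨hC.1, subset_univ _⟩
    rw [Set.indicator_of_mem hC]
    obtain ⟨r, hr, h4⟩ := h C hC.1 hC.2
    refine le_trans ?_ (Finset.single_le_sum (f := fun r => T.indicator (nearInd q r (3 * r)) C)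
      (fun _ _ => zero_le) hr)
    simp only [Set.indicator_of_mem hCT]
    rw [nearInd, if_pos h4]
  · rw [Set.indicator_of_notMem hC]
    exact zero_le

/-- **One zero of the field.** -/
theorem centre_count3 {n : ℕ} (hn : 1 ≤ n) {P Q : MvPolynomial (Fin 2) ℝ}
    (hP : P.totalDegree ≤ n) (hQ : Q.totalDegree ≤ n) (hPQ : IsRelPrime P Q) {q : ℝ × ℝ}
    (h0 : vf P Q q = 0) {t : ℝ} (ht : 0 < t) (ht1 : t ≤ 1 / 20) :
    ∃ (B : Set ℝ) (H : ℝ → ℝ≥0∞), volume B ≤ ENNReal.ofReal (6000 * n ^ 2 * t) ∧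
      AEMeasurable H (volume.restrict (Set.Ioo 0 Real.pi)) ∧
      ∫⁻ a in Set.Ioo 0 Real.pi, H a ≤
        ENNReal.ofReal (35700000 * n ^ 4 * Real.log (2 * n / t)) ∧
      ∀ a ∈ Set.Ioo 0 Real.pi, a ∉ B → hullN (vf P Q) q a ≤ H a := by
  obtain ⟨B, R, hB, hR, hRpos, hdi⟩ := dichotomy_at3 hn hP hQ hPQ h0 ht ht1
  have hn1 : (1 : ℝ) ≤ n := by exact_mod_cast hn
  have hvf : vf P Q = vfc (arr n P, arr n Q) := vf_eq_vfc hP hQ
  set μ : Pr n := (arr n P, arr n Q) with hμ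
  set H : ℝ → ℝ≥0∞ := fun a => ∑ r ∈ R, setSum (nearInd q r (3 * r)) (vfc μ) Set.univ a with hH
  have hmn : ∀ r : ℝ, AEMeasurable (setSum (nearInd q r (3 * r)) (vfc μ) Set.univ)
      (volume.restrict (Set.Ioo 0 Real.pi)) := fun r => aemeasurable_near μ q r (3 * r)
  have hmsum : AEMeasurable (fun a => ∑ r ∈ R, setSum (nearInd q r (3 * r)) (vfc μ) Set.univ a)
      (volume.restrict (Set.Ioo 0 Real.pi)) := by
    have := Finset.aemeasurable_sum (f := fun r => setSum (nearInd q r (3 * r)) (vfc μ) Set.univ)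
      R fun r _ => hmn r
    refine this.congr (Eventually.of_forall fun a => ?_)
    simp only [Finset.sum_apply]
  refine ⟨B, H, hB, hmsum, ?_, ?_⟩
  · rw [hH, lintegral_finset_sum' _ fun r _ => hmn r]
    have h2 : ∀ r ∈ R, ∫⁻ a in Set.Ioo 0 Real.pi, setSum (nearInd q r (3 * r)) (vfc μ) Set.univ a ≤
        ENNReal.ofReal (2100 * n) := by
      intro r hr
      have hr0 := hRpos r hr
      refine (near_avg hn μ q (L := r) (R := 3 * r) hr0 (by linarith)).trans ?_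
      apply ENNReal.ofReal_le_ofReal
      rw [div_le_iff₀ hr0]
      nlinarith
    refine (Finset.sum_le_sum h2).trans ?_
    rw [Finset.sum_const, nsmul_eq_mul, ← ENNReal.ofReal_natCast, ← ENNReal.ofReal_mul
      (by positivity)]
    apply ENNReal.ofReal_le_ofReal
    calc (R.card : ℝ) * (2100 * n) ≤ (17000 * n ^ 3 * Real.log (2 * n / t)) * (2100 * n) := by
          gcongr
      _ = 35700000 * n ^ 4 * Real.log (2 * n / t) := by ring
  · intro a ha haB
    rw [hH]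
    have := hullN_le_near (v := vf P Q) (q := q) (a := a) (R := R)
      fun C hC hq => hdi a ha haB C hC hq
    rw [hvf] at this ⊢
    exact this

end Pool.Agent.Lib.MP_95e7ec_an
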